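import Pool.Agent.Lib.TR5.Desc

/-! From the set-pair bound to small tests and to small boxes. -/

namespace Pool.Agent.Lib.TR5

open Finset

variable {σ : Type} [DecidableEq σ] [Fintype σ]

lemma ll_step {S : Finset σ} {e D : ℕ} (hD : S.card ≤ D)
    (hB : ∀ α ∈ S, BB (S.erase α) (S.erase α).powerset e) : LL S (2 * e * D) := by
  classical
  intro F _ Q X k κ _ L c g hk hc hg hn
  obtain ⟨Y, hYX, hY, hcr⟩ := exists_crit (fun Y => g ∉ Mem Y S L c) X hn
  simp only [not_not] at hcr
  have hcard : ∀ α ∈ S, (Y α).card ≤ (k + 2) ^ (2 * e) := by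
    intro α hα
    have hn : ∀ γ : Q α, ∃ n : κ → (∀ α, Q α) → F, (∀ i, Dp (S \ L i) (n i)) ∧
        (∀ i, ¬ L i ⊆ S → n i = 0) ∧ (γ ∈ Y α → ∀ x, InB Y x → x α ≠ γ →
          g x = ∑ i, c i x * n i x) := by
      intro γ
      by_cases hγ : γ ∈ Y α
      · obtain ⟨n, h1, h2, h3⟩ := hcr α γ hγ
        exact ⟨n, h1, h2, fun _ x hx h => h3 x (hx.erase h)⟩
      · exact ⟨0, fun _ => Dp.zero _, fun _ _ => rfl, fun h => absurd h hγ⟩
    choose n hn1 hn2 hn3 using hn
    have hs : ∀ i, α ∈ L i → α ∉ S \ L i := fun i hi h => (mem_sdiff.1 h).2 hi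
    have ht : ∀ γ y x, (∑ j : Option κ,
        Option.elim j 1 (fun i => if α ∈ L i then n γ i else 0) *
        Option.elim j (fun x => g (Function.update x α y))
          (fun i => if L i ⊆ S then fun x => - c i (Function.update x α y) else 0)) x =
        g (Function.update x α y) - ∑ i, if α ∈ L i then
          c i (Function.update x α y) * n γ i (Function.update x α y) else 0 := by
      intro γ y x
      rw [Finset.sum_apply, Fintype.sum_option, sub_eq_add_neg, ← sum_neg_distrib]
      congr 1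
      · simp
      · refine sum_congr rfl fun i _ => ?_
        by_cases h1 : α ∈ L i
        · by_cases h2 : L i ⊆ S
          · simp [h1, h2, (hn1 γ i).up_eq (hs i h1), mul_comm]
          · simp [h1, hn2 γ i h2]
        · simp [h1]
    refine le_trans (hB α hα F Q Y (k + 1) (Q α) (Y α) (fun _ => κ) (fun _ => L) (fun _ => c)
      (Option κ) (fun j => Option.elim j ∅ fun i => S \ L i)
      (fun γ j => Option.elim j 1 fun i => if α ∈ L i then n γ i else 0)
      (fun y j => Option.elim j (fun x => g (Function.update x α y))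
        fun i => if L i ⊆ S then fun x => - c i (Function.update x α y) else 0)
      (fun _ => by omega) (by simpa using hk) (fun _ => hc) ?_ ?_ ?_ ?_ ?_) ?_
    · rintro γ (_ | i)
      · exact fun _ _ _ => rfl
      · exact Dp.ite _ fun _ => hn1 γ i
    · rintro y (_ | i)
      · simpa using hg.up α y
      · refine Dp.ite _ fun hi a b hab => congrArg Neg.neg ((hc i).up α y a b fun β hβ =>
          hab β ?_)
        simp only [Option.elim_some, mem_sdiff, mem_erase, not_and, not_not] at hβ ⊢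
        exact ⟨⟨hβ.1, hi hβ.2⟩, fun _ => hβ.2⟩
    · rintro (_ | i) hj γ
      · simp at hj
      · refine if_neg fun hi => hj (mem_powerset.2 fun β hβ => mem_erase.2
          ⟨fun h => hs i hi (h ▸ hβ), (mem_sdiff.1 hβ).1⟩)
    · intro γ hγ y hy hne
      refine ⟨fun i => if α ∉ L i then fun x => n γ i (Function.update x α y) else 0,
        fun i => Dp.ite _ fun _ => ((hn1 γ i).up α y).mono fun β hβ => ?_, fun i hi => ?_,
        fun x hx => ?_⟩
      · simp only [mem_sdiff, mem_erase] at hβ ⊢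
        exact ⟨⟨hβ.1, hβ.2.1⟩, hβ.2.2⟩
      · beta_reduce
        split_ifs with h
        · rfl
        · rw [hn2 γ i fun h' => hi (subset_erase.2 ⟨h', h⟩)]
          rfl
      · rw [ht, hn3 γ hγ _ (hx.up hy) (by simpa using hne), ← sum_sub_distrib]
        refine sum_congr rfl fun i _ => ?_
        by_cases h1 : α ∈ L i
        · simp [h1]
        · simp [h1, (hc i).up_eq h1]
    · rintro γ hγ ⟨m, h1, h2, h3⟩
      refine hY ⟨fun i x => if α ∉ L i ∧ x α = γ then m i x else n γ i x, fun i a b hab => ?_,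
        fun i hi => ?_, fun x hx => ?_⟩
      · beta_reduce
        rw [hn1 γ i a b hab, h1 i a b fun β hβ =>
          hab β (sdiff_subset_sdiff (erase_subset _ _) le_rfl hβ)]
        by_cases h : α ∈ L i
        · simp [h]
        · rw [hab α (mem_sdiff.2 ⟨hα, h⟩)]
      · funext x
        simp [hn2 γ i hi, h2 i fun h => hi (h.trans (erase_subset _ _))]
      · by_cases hx' : x α = γ
        · have h4 := h3 x hx
          rw [ht, ← hx', Function.update_eq_self, sub_eq_iff_eq_add, ← sum_add_distrib, hx'] at h4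
          rw [h4]
          refine sum_congr rfl fun i _ => ?_
          by_cases h : α ∈ L i
          · simp [h, h2 i fun h' => notMem_erase α S (h' h)]
          · simp [h, hx']
        · rw [hn3 γ hγ x hx hx']
          simp [hx']
    · rw [pow_mul]
      exact Nat.pow_le_pow_left (by nlinarith) e
  obtain ⟨b, hb⟩ : ∃ b, InB Y b := by
    by_contra h
    exact hY (Mem.of_eq (zero_mem _) fun x hx => absurd ⟨x, hx⟩ h)
  set W : ∀ α, Finset (Q α) := fun α => if α ∈ S then Y α else {b α} with hW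
  have hWY : ∀ x, InB W x → InB Y x := fun x hx α => by
    have := hx α
    simp only [hW] at this
    split_ifs at this
    · exact this
    · rw [mem_singleton.1 this]
      exact hb α
  have hgW : g ∉ Mem W S L c := by
    rintro ⟨m, h1, h2, h3⟩
    refine hY ⟨m, h1, h2, fun x hx => ?_⟩
    have hp : ∀ α ∈ S, S.piecewise x b α = x α := fun α hα => piecewise_eq_of_mem _ _ _ hα
    have h4 := h3 (S.piecewise x b) fun α => by
      by_cases hα : α ∈ S
      · simpa [hW, hα] using hx α
      · simp [hW, hα]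
    rw [hg _ x hp] at h4
    rw [h4]
    refine sum_congr rfl fun i _ => ?_
    by_cases hi : L i ⊆ S
    · rw [hc i _ x fun α hα => hp α (hi hα), h1 i _ x fun α hα => hp α (mem_sdiff.1 hα).1]
    · simp [h2 i hi]
  obtain ⟨ψ, hψ, hk⟩ := Submodule.exists_le_ker_of_notMem hgW
  have hrep : ∀ f, ψ f = ∑ z ∈ Fintype.piFinset W, ψ (Pi.single z 1) * f z := by
    intro f
    have h1 : f - ∑ z ∈ Fintype.piFinset W, f z • Pi.single z (1 : F) ∈ Mem W S L c := by
      refine Mem.of_eq (zero_mem _) fun x hx => ?_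
      simp [Finset.sum_apply, Pi.single_apply, Fintype.mem_piFinset.2 hx]
    have h2 := hk h1
    rw [LinearMap.mem_ker, map_sub, map_sum, sub_eq_zero] at h2
    simpa [mul_comm] using h2
  refine ⟨Fintype.piFinset W, fun z => ψ (Pi.single z 1), ?_,
    ⟨fun z hz α => hYX α (hWY z (Fintype.mem_piFinset.1 hz) α), ?_⟩, by rwa [← hrep]⟩
  · rw [Fintype.card_piFinset]
    calc ∏ α, (W α).card ≤ ∏ α, if α ∈ S then (k + 2) ^ (2 * e) else 1 :=
          prod_le_prod' fun α _ => by
            simp only [hW]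
            split_ifs with h
            exacts [hcard α h, by simp]
      _ = ((k + 2) ^ (2 * e)) ^ S.card := by simp
      _ ≤ _ := by
          rw [← pow_mul]
          exact Nat.pow_le_pow_right (by omega) (Nat.mul_le_mul_left _ hD)
  · rintro f ⟨m, h1, h2, h3⟩
    rw [← hrep]
    exact hk ⟨m, h1, h2, fun x hx => h3 x fun α => hYX α (hWY x hx α)⟩

omit [Fintype σ] in
lemma bb_of {D e : ℕ} (h : ∀ S : Finset σ, S.card ≤ D → LL S e) :
    ∃ e', ∀ S : Finset σ, S.card ≤ D → BB S S.powerset e' := by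
  obtain ⟨e', he⟩ := bb_all (σ := σ) e (2 ^ D)
  refine ⟨e', fun S hS => he S (fun K hK => h K ((card_le_card hK).trans hS)) _ ?_
    (fun K hK => mem_powerset.1 hK) fun K _ L hL _ => mem_powerset.2 hL⟩
  rw [card_powerset]
  exact Nat.pow_le_pow_right (by omega) hS

lemma ll_all (D : ℕ) : ∃ e, ∀ S : Finset σ, S.card ≤ D → LL S e := by
  induction D with
  | zero =>
    refine ⟨_, fun S hS => ll_step (e := 0) hS fun α hα => ?_⟩
    rw [card_eq_zero.1 (Nat.le_zero.1 hS)] at hα
    simp at hα
  | succ D ih =>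
    obtain ⟨e, he⟩ := ih
    obtain ⟨e', he'⟩ := bb_of he
    refine ⟨_, fun S hS => ll_step (e := e') hS fun α hα => he' _ ?_⟩
    rw [card_erase_of_mem hα]
    omega

/-- `T` is on the box `X` a sum of fewer than `l` terms of the shapes in `R` -/
def Dec (R : Set (Finpartition (univ : Finset σ))) (l : ℕ) {F : Type} [Field F] {Q : σ → Type}
    (T : (∀ α, Q α) → F) (X : ∀ α, Finset (Q α)) : Prop :=
  ∃ k < l, ∃ (P : Fin k → Finpartition (univ : Finset σ))
    (a : Fin k → Finset σ → (∀ α, Q α) → F), (∀ i, P i ∈ R) ∧ (∀ i I, Dp I (a i I)) ∧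
    ∀ x, InB X x → T x = ∑ i, ∏ I ∈ (P i).parts, a i I x

theorem core : ∃ e, ∀ (R : Set (Finpartition (univ : Finset σ))) (l : ℕ) (F : Type) [Field F]
    (Q : σ → Type) (T : (∀ α, Q α) → F) (X : ∀ α, Finset (Q α)), ¬ Dec R l T X →
    ∃ Y : ∀ α, Finset (Q α), (∀ α, (Y α).card ≤ (l + 2) ^ e) ∧ ¬ Dec R l T Y := by
  classical
  obtain ⟨e0, h0⟩ := ll_all (σ := σ) (Fintype.card σ)
  obtain ⟨e, he⟩ := bb_of h0
  refine ⟨e, fun R l F _ Q T X hX => ?_⟩
  rcases Nat.eq_zero_or_pos l with rfl | hl
  · exact ⟨fun _ => ∅, fun _ => by simp, fun ⟨k, hk, _⟩ => absurd hk (by omega)⟩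
  obtain ⟨Y, -, hY, hcr⟩ := exists_crit (fun Y => ¬ Dec R l T Y) X hX
  simp only [not_not] at hcr
  refine ⟨Y, fun α => ?_, hY⟩
  choose k hk P a hP ha hT using fun γ : Y α => hcr α γ.1 γ.2
  have hpt : ∀ γ i, (P γ i).part α ∈ (P γ i).parts := fun γ i => (P γ i).part_mem.2 (mem_univ α)
  have hma : ∀ γ i, α ∈ (P γ i).part α := fun γ i => (P γ i).mem_part (mem_univ α)
  have hdis : ∀ γ i, ∀ I ∈ (P γ i).parts.erase ((P γ i).part α), I ⊆ univ \ (P γ i).part α := by
    intro γ i I hI β hβ
    refine mem_sdiff.2 ⟨mem_univ _, fun h => (mem_erase.1 hI).1 ?_⟩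
    exact (P γ i).eq_of_mem_parts (mem_erase.1 hI).2 (hpt γ i) hβ h
  set c : ∀ γ, Fin (k γ) → (∀ α, Q α) → F :=
    fun γ i x => ∏ I ∈ (P γ i).parts.erase ((P γ i).part α), a γ i I x with hc
  have dc : ∀ γ i, Dp (univ \ (P γ i).part α) (c γ i) := fun γ i x y h =>
    prod_congr rfl fun I hI => (ha γ i I).mono (hdis γ i I hI) x y h
  have hsp : ∀ γ i x, ∏ I ∈ (P γ i).parts, a γ i I x = c γ i x * a γ i ((P γ i).part α) x :=
    fun γ i x => (prod_erase_mul _ _ (hpt γ i)).symm
  have hna : ∀ γ i, α ∉ univ \ (P γ i).part α := fun γ i h => (mem_sdiff.1 h).2 (hma γ i)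
  rw [← Fintype.card_coe, ← card_univ]
  refine he (univ.erase α) (card_le_univ _) F Q Y l (Y α) univ (fun γ => Fin (k γ))
    (fun γ i => univ \ (P γ i).part α) c Unit (fun _ => ∅) (fun _ _ => 1)
    (fun y _ x => T (Function.update x α y.1)) (fun γ => by simpa using (hk γ).le)
    (by rw [Fintype.card_unit]; exact hl) dc (fun _ _ _ _ _ => rfl) (fun y _ => ?_) (fun _ h => by simp at h) ?_ ?_
  · have : Dp univ T := fun x y h => congrArg T (funext fun β => h β (mem_univ β))
    simpa using this.up α y.1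
  · intro γ _ y _ hne
    refine ⟨fun i x => a γ i ((P γ i).part α) (Function.update x α y.1),
      fun i => ((ha γ i _).up α y.1).mono fun β hβ => ?_, fun i hi => absurd ?_ hi,
      fun x hx => ?_⟩
    · simpa using hβ
    · exact subset_erase.2 ⟨subset_univ _, hna γ i⟩
    · have := hT γ _ ((hx.up y.2).erase (γ := γ.1) (by
        rw [Function.update_self]; exact fun h => hne (Subtype.ext h)))
      simp only [hsp, (dc γ _).up_eq (hna γ _)] at this
      simpa using this
  · rintro γ _ ⟨m, h1, -, h3⟩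
    refine hY ⟨k γ, hk γ, P γ, fun i I x => if I = (P γ i).part α ∧ x α = γ.1 then m i x
      else a γ i I x, hP γ, fun i I x y h => ?_, fun x hx => ?_⟩
    · beta_reduce
      rw [ha γ i I x y h]
      by_cases hI : I = (P γ i).part α
      · subst hI
        rw [h α (hma γ i), h1 i x y fun β hβ => h β (by simpa using (mem_sdiff.1 hβ).2)]
      · simp [hI]
    · by_cases hx' : x α = γ.1
      · have h4 := h3 x hx
        simp only [univ_unique, sum_singleton, one_mul, ← hx', Function.update_eq_self] at h4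
        rw [h4]
        refine sum_congr rfl fun i _ => ?_
        beta_reduce
        rw [← prod_erase_mul _ _ (hpt γ i), if_pos ⟨rfl, hx'⟩]
        congr 1
        exact prod_congr rfl fun I hI => (if_neg fun h => (mem_erase.1 hI).1 h.1).symm
      · rw [hT γ x (hx.erase hx')]
        simp [hx']

end Pool.Agent.Lib.TR5
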