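import Pool.Agent.Lib.TR5.Mem

/-! The descent: a set-pair bound modulo multilinear ideals. -/

namespace Pool.Agent.Lib.TR5

open Finset

variable {σ : Type} [DecidableEq σ]

/-- non-membership in an ideal is detected by a small test -/
def LL (S : Finset σ) (e : ℕ) : Prop :=
  ∀ (F : Type) [Field F] (Q : σ → Type) (X : ∀ α, Finset (Q α)) (k : ℕ) (κ : Type) [Fintype κ]
    (L : κ → Finset σ) (c : κ → (∀ α, Q α) → F) (g : (∀ α, Q α) → F), Fintype.card κ ≤ k →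
    (∀ i, Dp (L i) (c i)) → Dp S g → g ∉ Mem X S L c →
    ∃ Z w, Z.card ≤ (k + 2) ^ e ∧ Tst X S L c Z w ∧ ∑ z ∈ Z, w z * g z ≠ 0

/-- the set-pair bound for generators with degrees in `A` -/
def BB (S : Finset σ) (A : Finset (Finset σ)) (e : ℕ) : Prop :=
  ∀ (F : Type) [Field F] (Q : σ → Type) (X : ∀ α, Finset (Q α)) (n : ℕ) (G : Type) (Γ : Finset G)
    (κ : G → Type) [∀ γ, Fintype (κ γ)] (L : ∀ γ, κ γ → Finset σ)
    (c : ∀ γ, κ γ → (∀ α, Q α) → F) (ι : Type) [Fintype ι] (K : ι → Finset σ)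
    (ν h : G → ι → (∀ α, Q α) → F), (∀ γ, Fintype.card (κ γ) ≤ n) → Fintype.card ι ≤ n →
    (∀ γ i, Dp (L γ i) (c γ i)) → (∀ γ j, Dp (K j) (ν γ j)) → (∀ y j, Dp (S \ K j) (h y j)) →
    (∀ j, K j ∉ A → ∀ γ, ν γ j = 0) →
    (∀ γ ∈ Γ, ∀ y ∈ Γ, y ≠ γ → ∑ j, ν γ j * h y j ∈ Mem X S (L γ) (c γ)) →
    (∀ γ ∈ Γ, ∑ j, ν γ j * h γ j ∉ Mem X S (L γ) (c γ)) → Γ.card ≤ (n + 2) ^ e

lemma LL.mono {S : Finset σ} {e e' : ℕ} (h : LL S e) (he : e ≤ e') : LL S e' := by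
  intro F _ Q X k κ _ L c g h1 h2 h3 h4
  obtain ⟨Z, w, h5, h6⟩ := h F Q X k κ L c g h1 h2 h3 h4
  exact ⟨Z, w, h5.trans (Nat.pow_le_pow_right (by omega) he), h6⟩

lemma bb_empty (S : Finset σ) (e : ℕ) : BB S ∅ e := by
  intro F _ Q X n G Γ κ _ L c ι _ K ν h _ _ _ _ _ h0 _ h2
  rw [eq_empty_of_forall_notMem (s := Γ) fun γ hγ => h2 γ hγ ?_]
  · simp
  · simp [h0 _ (notMem_empty _)]

/-- contraction of a relation with a test of degree `K'` -/
lemma contract {F : Type} [Field F] {Q : σ → Type} {X : ∀ α, Finset (Q α)} {S K' : Finset σ}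
    {κ ι : Type} [Fintype κ] [Fintype ι] {L : κ → Finset σ} {c n : κ → (∀ α, Q α) → F}
    {K : ι → Finset σ} {ν h : ι → (∀ α, Q α) → F} {Z : Finset (∀ α, Q α)} {w : (∀ α, Q α) → F}
    (hT : Tst X K' L c Z w) (hc : ∀ i, Dp (L i) (c i)) (hν : ∀ j, Dp (K j) (ν j))
    (hh : ∀ j, Dp (S \ K j) (h j)) (hK : ∀ j, K j ≠ K' → ¬ (K j ⊆ S ∧ ¬ K j ⊆ K') → ν j = 0)
    (h1 : ∀ i, Dp (S \ L i) (n i)) (h2 : ∀ i, ¬ L i ⊆ S → n i = 0)
    (h3 : ∀ x, InB X x → (∑ j, ν j * h j) x = ∑ i, c i x * n i x) {x : ∀ α, Q α} (hx : InB X x) :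
    ∑ j, (if K j = K' then ∑ z ∈ Z, w z * ν j z else 0) * h j x =
      ∑ z ∈ Z, ∑ i : κ ⊕ ι, if Sum.elim L K i ⊆ S ∧ ¬ Sum.elim L K i ⊆ K' then
        Sum.elim c ν i (K'.piecewise z x) * (w z * Sum.elim n (-h) i (K'.piecewise z x))
        else 0 := by
  have hm : (fun z => ∑ i, c i z * if L i ⊆ K' then n i (K'.piecewise z x) else 0) ∈
      Mem X K' L c := by
    refine ⟨fun i => if L i ⊆ K' then fun z => n i (K'.piecewise z x) else 0,
      fun i => Dp.ite _ fun _ => ((h1 i).pw' x).mono ?_, fun i hi => if_neg hi, fun z _ => ?_⟩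
    · intro α hα
      simp only [mem_inter, mem_sdiff] at hα ⊢
      exact ⟨hα.2, hα.1.2⟩
    · exact sum_congr rfl fun i _ => by beta_reduce; split_ifs <;> rfl
  have h0 := hT.2 _ hm
  have hl : ∑ j, (if K j = K' then ∑ z ∈ Z, w z * ν j z else 0) * h j x =
      ∑ z ∈ Z, ∑ j, if K j = K' then w z * ν j z * h j x else 0 := by
    rw [sum_comm]
    refine sum_congr rfl fun j _ => ?_
    split_ifs
    · rw [sum_mul]
    · simp
  rw [hl, ← sub_eq_zero, ← sum_sub_distrib]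
  refine Eq.trans (sum_congr rfl fun z hz => ?_) h0
  have e := h3 _ ((hT.1 z hz).pw hx K')
  rw [Finset.sum_apply] at e
  have e1 : ∀ i, w z * (c i (K'.piecewise z x) * n i (K'.piecewise z x)) =
      (if L i ⊆ S ∧ ¬ L i ⊆ K' then c i (K'.piecewise z x) * (w z * n i (K'.piecewise z x))
        else 0) + w z * (c i z * if L i ⊆ K' then n i (K'.piecewise z x) else 0) := by
    intro i
    by_cases hi : L i ⊆ K'
    · rw [if_neg fun h => h.2 hi, if_pos hi, zero_add,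
        hc i _ z fun α hα => piecewise_eq_of_mem _ _ _ (hi hα)]
    · by_cases hi' : L i ⊆ S
      · rw [if_pos ⟨hi', hi⟩, if_neg hi]
        ring
      · simp [h2 i hi']
  have e2 : ∀ j, w z * (ν j * h j) (K'.piecewise z x) =
      (if K j = K' then w z * ν j z * h j x else 0) - if K j ⊆ S ∧ ¬ K j ⊆ K' then
        ν j (K'.piecewise z x) * (w z * (-h) j (K'.piecewise z x)) else 0 := by
    intro j
    by_cases hj : K j = K'
    · rw [if_pos hj, if_neg fun h => h.2 hj.le, sub_zero, Pi.mul_apply,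
        hν j _ z fun α hα => piecewise_eq_of_mem _ _ _ (hj ▸ hα),
        hh j _ x fun α hα => piecewise_eq_of_notMem _ _ _ (hj ▸ (mem_sdiff.1 hα).2), mul_assoc]
    · rw [if_neg hj]
      by_cases hj' : K j ⊆ S ∧ ¬ K j ⊆ K'
      · rw [if_pos hj']
        simp only [Pi.mul_apply, Pi.neg_apply]
        ring
      · simp [hK j hj hj']
  have e3 := congrArg (w z * ·) e
  simp only [mul_sum, e1, e2, sum_sub_distrib, sum_add_distrib] at e3
  simp only [Fintype.sum_sum_type, Sum.elim_inl, Sum.elim_inr, mul_sum]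
  linear_combination e3

lemma arith (n e1 e2 m : ℕ) (hm : m ≤ (n + n * ((n + 2) ^ e1 * (n + n)) + 2) ^ e2) :
    m + n ≤ (n + 2) ^ ((e1 + 3) * e2 + 1) := by
  have h1 : 1 ≤ (n + 2) ^ e1 := Nat.one_le_pow _ _ (by omega)
  have h2 : n + n * ((n + 2) ^ e1 * (n + n)) + 2 ≤ (n + 2) ^ (e1 + 3) := by
    rw [pow_add]
    generalize (n + 2) ^ e1 = p at h1
    nlinarith [Nat.mul_le_mul_left n h1, Nat.zero_le (p * n ^ 3), Nat.zero_le (p * n ^ 2)]
  have h3 := hm.trans (Nat.pow_le_pow_left h2 e2)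
  rw [← pow_mul] at h3
  have h4 : 1 ≤ (n + 2) ^ ((e1 + 3) * e2) := Nat.one_le_pow _ _ (by omega)
  rw [pow_succ]
  nlinarith [Nat.mul_le_mul_left n h4]

lemma bb_step {S K' : Finset σ} {A : Finset (Finset σ)} {e1 e2 : ℕ} (hL : LL K' e1)
    (hK' : K' ⊆ S) (hsub : ∀ K ∈ A, K ⊆ S) (hmin : ∀ K ∈ A, K ⊆ K' → K = K')
    (hup : ∀ L ⊆ S, ¬ L ⊆ K' → K' ∪ L ∈ A.erase K') (hB : BB S (A.erase K') e2) :
    BB S A ((e1 + 3) * e2 + 1) := by
  classical
  intro F _ Q X n G Γ κ _ L c ι _ K ν h hκ hι hc hν hh h0 hoff hdiag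
  obtain ⟨J, _, τ, g, hJ, hg⟩ := exists_span
    (T := {t : G × Finset (∀ α, Q α) × ((∀ α, Q α) → F) //
      t.1 ∈ Γ ∧ t.2.1.card ≤ (n + 2) ^ e1 ∧ Tst X K' (L t.1) (c t.1) t.2.1 t.2.2})
    (fun t j => if K j = K' then ∑ z ∈ t.1.2.1, t.1.2.2 z * ν t.1.1 j z else 0)
  set γs : J → G := fun s => (τ s).1.1
  set Z : J → Finset (∀ α, Q α) := fun s => (τ s).1.2.1
  set w : J → (∀ α, Q α) → F := fun s => (τ s).1.2.2
  set v : J → ι → F := fun s j => if K j = K' then ∑ z ∈ Z s, w s z * ν (γs s) j z else 0 with hv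
  set μ : G → J → (∀ α, Q α) → F := fun γ s => ∑ i, if K i = K' then g s i • ν γ i else 0 with hμ
  have dμ : ∀ γ s, Dp K' (μ γ s) := fun γ s =>
    Dp.sum _ fun i _ => Dp.ite _ fun hi => (hi ▸ hν γ i).smul _
  have hmem : ∀ γ ∈ Γ, ∀ j, K j = K' →
      ν γ j - ∑ s, v s j • μ γ s ∈ Mem X K' (L γ) (c γ) := by
    intro γ hγ j hj
    by_contra hn
    obtain ⟨Z', w', h1, h2, h3⟩ := hL F Q X n (κ γ) (L γ) (c γ) _ (hκ γ) (hc γ)
      ((hj ▸ hν γ j).sub (Dp.sum _ fun s _ => (dμ γ s).smul _)) hn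
    have h4 : (if K j = K' then ∑ z ∈ Z', w' z * ν γ j z else 0) =
        ∑ s, (∑ i, g s i * if K i = K' then ∑ z ∈ Z', w' z * ν γ i z else 0) * v s j :=
      hg ⟨(γ, Z', w'), hγ, h1, h2⟩ j
    have h5 : ∀ s, (∑ i, g s i * if K i = K' then ∑ z ∈ Z', w' z * ν γ i z else 0) =
        ∑ z ∈ Z', w' z * μ γ s z := fun s => by
      simp only [hμ, Finset.sum_apply, mul_sum]
      rw [sum_comm]
      refine sum_congr rfl fun i _ => ?_
      split_ifs
      · rw [mul_sum]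
        exact sum_congr rfl fun z _ => by simp [mul_left_comm]
      · simp
    simp only [if_pos hj, h5, sum_mul] at h4
    apply h3
    simp only [Pi.sub_apply, mul_sub, sum_sub_distrib, h4, Finset.sum_apply, Pi.smul_apply,
      smul_eq_mul, mul_sum]
    rw [sub_eq_zero, sum_comm]
    exact sum_congr rfl fun z _ => sum_congr rfl fun s _ => by ring
  have hn : ∀ y s, ∃ n' : κ (γs s) → (∀ α, Q α) → F, (∀ i, Dp (S \ L (γs s) i) (n' i)) ∧
      (∀ i, ¬ L (γs s) i ⊆ S → n' i = 0) ∧ (y ∈ Γ → y ≠ γs s → ∀ x, InB X x →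
        (∑ j, ν (γs s) j * h y j) x = ∑ i, c (γs s) i x * n' i x) := by
    intro y s
    by_cases hy : y ∈ Γ ∧ y ≠ γs s
    · obtain ⟨n', h1, h2, h3⟩ := hoff _ (τ s).2.1 y hy.1 hy.2
      exact ⟨n', h1, h2, fun _ _ => h3⟩
    · exact ⟨0, fun _ => Dp.zero _, fun _ _ => rfl, fun h1 h2 => absurd ⟨h1, h2⟩ hy⟩
  choose N hN1 hN2 hN3 using hn
  set LL : ∀ s, κ (γs s) ⊕ ι → Finset σ := fun s => Sum.elim (L (γs s)) K
  set CC : ∀ s, κ (γs s) ⊕ ι → (∀ α, Q α) → F := fun s => Sum.elim (c (γs s)) (ν (γs s))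
  set NN : G → ∀ s, κ (γs s) ⊕ ι → (∀ α, Q α) → F := fun y s => Sum.elim (N y s) (-h y)
  have dC : ∀ s i, Dp (LL s i) (CC s i) := fun s i => by
    cases i
    exacts [hc _ _, hν _ _]
  have dN : ∀ y s i, Dp (S \ LL s i) (NN y s i) := fun y s i => by
    cases i with
    | inl i => exact hN1 y s i
    | inr j => exact fun a b hab => congrArg Neg.neg (hh y j a b hab)
  set ν' : G → ι ⊕ (Σ s : J, Z s × (κ (γs s) ⊕ ι)) → (∀ α, Q α) → F := fun γ =>
    Sum.elim (fun j => if K j ≠ K' then ν γ j else 0) fun p =>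
      if LL p.1 p.2.2 ⊆ S ∧ ¬ LL p.1 p.2.2 ⊆ K' then
        μ γ p.1 * fun x => CC p.1 p.2.2 (K'.piecewise p.2.1.1 x) else 0 with hν'
  set h' : G → ι ⊕ (Σ s : J, Z s × (κ (γs s) ⊕ ι)) → (∀ α, Q α) → F := fun y =>
    Sum.elim (h y) fun p => w p.1 p.2.1.1 • fun x => NN y p.1 p.2.2 (K'.piecewise p.2.1.1 x)
    with hh'
  have key : ∀ γ ∈ Γ, ∀ y ∈ Γ \ univ.image γs,
      ∑ j, ν γ j * h y j - ∑ j, ν' γ j * h' y j ∈ Mem X S (L γ) (c γ) := by
    intro γ hγ y hy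
    have hy' : ∀ s, y ≠ γs s := fun s hs =>
      (mem_sdiff.1 hy).2 (mem_image.2 ⟨s, mem_univ _, hs.symm⟩)
    refine Mem.of_eq (f := ∑ j, if K j = K' then (ν γ j - ∑ s, v s j • μ γ s) * h y j else 0)
      (Submodule.sum_mem _ fun j _ => ?_) fun x hx => ?_
    · split_ifs with hj
      · exact Mem.mul hK' (hmem γ hγ j hj) (hj ▸ hh y j)
      · exact zero_mem _
    have hq : ∀ s, ∑ j, v s j * h y j x = ∑ z ∈ Z s, ∑ i, if LL s i ⊆ S ∧ ¬ LL s i ⊆ K' then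
        CC s i (K'.piecewise z x) * (w s z * NN y s i (K'.piecewise z x)) else 0 := fun s =>
      contract (τ s).2.2.2 (hc _) (hν _) (hh y) (fun j h1 h2 => h0 j (fun hj =>
        h2 ⟨hsub _ hj, fun h3 => h1 (hmin _ hj h3)⟩) _) (hN1 y s) (hN2 y s)
        (hN3 y s (mem_sdiff.1 hy).1 (hy' s)) hx
    have a1 : ∑ p : (Σ s : J, Z s × (κ (γs s) ⊕ ι)), (ν' γ (.inr p) * h' y (.inr p)) x =
        ∑ s, μ γ s x * ∑ j, v s j * h y j x := by
      rw [Fintype.sum_sigma]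
      refine sum_congr rfl fun s _ => ?_
      rw [hq, Fintype.sum_prod_type, mul_sum, ← sum_coe_sort (Z s)]
      refine sum_congr rfl fun z _ => ?_
      rw [mul_sum]
      refine sum_congr rfl fun i _ => ?_
      simp only [hν', hh', Sum.elim_inr]
      split_ifs
      · simp only [Pi.mul_apply, Pi.smul_apply, smul_eq_mul, mul_assoc]
      · simp
    rw [Pi.sub_apply, Finset.sum_apply, Finset.sum_apply, Finset.sum_apply, Fintype.sum_sum_type,
      a1]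
    simp only [mul_sum]
    rw [sum_comm, ← sum_add_distrib, ← sum_sub_distrib]
    refine sum_congr rfl fun j _ => ?_
    simp only [hν', hh', Sum.elim_inl]
    by_cases hj : K j = K'
    · simp only [hj, ne_eq, not_true, if_false, if_true, zero_mul, Pi.zero_apply, zero_add,
        Pi.mul_apply, Pi.sub_apply, Finset.sum_apply, Pi.smul_apply, smul_eq_mul, sub_mul, sum_mul]
      congr 1
      exact sum_congr rfl fun s _ => by ring
    · simp [hj, hv]
  have hfin := hB F Q X (n + n * ((n + 2) ^ e1 * (n + n))) G (Γ \ univ.image γs) κ L c _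
    (Sum.elim K fun p => K' ∪ LL p.1 p.2.2) ν' h' (fun γ => (hκ γ).trans (Nat.le_add_right _ _))
    ?_ hc ?_ ?_ ?_ ?_ ?_
  · refine le_trans ?_ (arith n e1 e2 _ hfin)
    refine (card_le_card_sdiff_add_card (t := univ.image γs) (s := Γ)).trans ?_
    gcongr
    exact card_image_le.trans (hJ.trans hι)
  · rw [Fintype.card_sum, Fintype.card_sigma]
    gcongr
    refine (sum_le_card_nsmul _ _ ((n + 2) ^ e1 * (n + n)) fun s _ => ?_).trans ?_
    · rw [Fintype.card_prod, Fintype.card_coe, Fintype.card_sum]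
      exact Nat.mul_le_mul (τ s).2.2.1 (add_le_add (hκ _) hι)
    · exact Nat.mul_le_mul_right _ (hJ.trans hι)
  · rintro γ (j | p)
    · exact Dp.ite _ fun _ => hν γ j
    · exact Dp.ite _ fun _ => ((dμ γ _).mono subset_union_left).mul
        (((dC _ _).pw _).mono (sdiff_subset.trans subset_union_right))
  · rintro y (j | p)
    · exact hh y j
    · refine (((dN y _ _).pw _).mono fun α hα => ?_).smul _
      simp only [mem_sdiff, Sum.elim_inr, mem_union, not_or] at hα ⊢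
      exact ⟨hα.1.1, hα.2, hα.1.2⟩
  · rintro (j | p) hj γ
    · simp only [hν', Sum.elim_inl]
      split_ifs with h1
      · exact h0 j (fun h2 => hj (mem_erase.2 ⟨h1, h2⟩)) γ
      · rfl
    · exact if_neg fun h1 => hj (hup _ h1.1 h1.2)
  · intro γ hγ y hy hne
    have := sub_mem (hoff γ (mem_sdiff.1 hγ).1 y (mem_sdiff.1 hy).1 hne)
      (key γ (mem_sdiff.1 hγ).1 y hy)
    rwa [sub_sub_cancel] at this
  · intro γ hγ hm
    have := add_mem (key γ (mem_sdiff.1 hγ).1 γ hγ) hm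
    rw [sub_add_cancel] at this
    exact hdiag γ (mem_sdiff.1 hγ).1 this

lemma bb_all (e1 m : ℕ) : ∃ e, ∀ S : Finset σ, (∀ K ⊆ S, LL K e1) → ∀ A : Finset (Finset σ),
    A.card ≤ m → (∀ K ∈ A, K ⊆ S) → (∀ K ∈ A, ∀ L ⊆ S, K ⊆ L → L ∈ A) → BB S A e := by
  induction m with
  | zero =>
    refine ⟨0, fun S _ A hA _ _ => ?_⟩
    rw [card_eq_zero.1 (Nat.le_zero.1 hA)]
    exact bb_empty S 0
  | succ m ih =>
    obtain ⟨e, he⟩ := ih
    refine ⟨(e1 + 3) * e + 1, fun S hS A hA h1 h2 => ?_⟩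
    rcases A.eq_empty_or_nonempty with rfl | hne
    · exact bb_empty S _
    obtain ⟨K', hK', hmin⟩ := A.exists_min_image card hne
    have hmin' : ∀ K ∈ A, K ⊆ K' → K = K' := fun K hK h => eq_of_subset_of_card_le h (hmin K hK)
    refine bb_step (hS K' (h1 K' hK')) (h1 K' hK') h1 hmin' (fun L hL hn => mem_erase.2
      ⟨fun h => hn (h ▸ subset_union_right), h2 K' hK' _ (union_subset (h1 K' hK') hL)
        subset_union_left⟩) (he S hS _ ?_ (fun K hK => h1 K (mem_of_mem_erase hK)) ?_)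
    · rw [card_erase_of_mem hK']
      omega
    · intro K hK L hL hKL
      refine mem_erase.2 ⟨fun h => ?_, h2 K (mem_of_mem_erase hK) L hL hKL⟩
      exact (mem_erase.1 hK).1 (hmin' K (mem_of_mem_erase hK) (h ▸ hKL))

end Pool.Agent.Lib.TR5
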