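import Mathlib

/-! Multilinear ideals of functions on a box; tests; two auxiliary lemmas. -/

namespace Pool.Agent.Lib.TR5

open Finset

variable {σ : Type} {Q : σ → Type} {F : Type} [Field F]

/-- `f` depends only on the coordinates in `K` -/
def Dp (K : Finset σ) (f : (∀ α, Q α) → F) : Prop := ∀ x y, (∀ α ∈ K, x α = y α) → f x = f y

/-- `x` lies in the box `X` -/
def InB (X : ∀ α, Finset (Q α)) (x : ∀ α, Q α) : Prop := ∀ α, x α ∈ X α

omit [Field F] in
lemma Dp.mono {K K' : Finset σ} {f : (∀ α, Q α) → F} (h : Dp K f) (hK : K ⊆ K') : Dp K' f :=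
  fun x y hxy => h x y fun α hα => hxy α (hK hα)

lemma Dp.zero (K : Finset σ) : Dp K (0 : (∀ α, Q α) → F) := fun _ _ _ => rfl

lemma Dp.mul {K : Finset σ} {f g : (∀ α, Q α) → F} (hf : Dp K f) (hg : Dp K g) : Dp K (f * g) :=
  fun x y h => by rw [Pi.mul_apply, Pi.mul_apply, hf x y h, hg x y h]

lemma Dp.smul {K : Finset σ} {f : (∀ α, Q α) → F} (a : F) (hf : Dp K f) : Dp K (a • f) :=
  fun x y h => by rw [Pi.smul_apply, Pi.smul_apply, hf x y h]

lemma Dp.sub {K : Finset σ} {f g : (∀ α, Q α) → F} (hf : Dp K f) (hg : Dp K g) : Dp K (f - g) :=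
  fun x y h => by rw [Pi.sub_apply, Pi.sub_apply, hf x y h, hg x y h]

lemma Dp.sum {K : Finset σ} {ι : Type} (s : Finset ι) {f : ι → (∀ α, Q α) → F}
    (hf : ∀ i ∈ s, Dp K (f i)) : Dp K (∑ i ∈ s, f i) :=
  fun x y h => by
    rw [Finset.sum_apply, Finset.sum_apply]
    exact sum_congr rfl fun i hi => hf i hi x y h

lemma Dp.ite {K : Finset σ} {f : (∀ α, Q α) → F} (p : Prop) [Decidable p] (hf : p → Dp K f) :
    Dp K (if p then f else 0) := by
  split_ifs with h
  exacts [hf h, Dp.zero K]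

variable [DecidableEq σ]

omit [Field F] in
/-- freezing the coordinates in `K` -/
lemma Dp.pw {K L : Finset σ} {f : (∀ α, Q α) → F} (hf : Dp L f) (z : ∀ α, Q α) :
    Dp (L \ K) fun w => f (K.piecewise z w) := fun x y h => hf _ _ fun α hα => by
  by_cases hK : α ∈ K
  · rw [piecewise_eq_of_mem _ _ _ hK, piecewise_eq_of_mem _ _ _ hK]
  · rw [piecewise_eq_of_notMem _ _ _ hK, piecewise_eq_of_notMem _ _ _ hK]
    exact h α (mem_sdiff.2 ⟨hα, hK⟩)

omit [Field F] in
/-- freezing the coordinates outside `K` -/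
lemma Dp.pw' {K L : Finset σ} {f : (∀ α, Q α) → F} (hf : Dp L f) (w : ∀ α, Q α) :
    Dp (L ∩ K) fun z => f (K.piecewise z w) := fun x y h => hf _ _ fun α hα => by
  by_cases hK : α ∈ K
  · rw [piecewise_eq_of_mem _ _ _ hK, piecewise_eq_of_mem _ _ _ hK]
    exact h α (mem_inter.2 ⟨hα, hK⟩)
  · rw [piecewise_eq_of_notMem _ _ _ hK, piecewise_eq_of_notMem _ _ _ hK]

omit [Field F] in
lemma Dp.up {L : Finset σ} {f : (∀ α, Q α) → F} (hf : Dp L f) (α : σ) (y : Q α) :
    Dp (L.erase α) fun x => f (Function.update x α y) := fun x x' h => hf _ _ fun β hβ => by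
  by_cases hb : β = α
  · subst hb
    simp
  · rw [Function.update_of_ne hb, Function.update_of_ne hb]
    exact h β (mem_erase.2 ⟨hb, hβ⟩)

omit [Field F] in
lemma Dp.up_eq {L : Finset σ} {f : (∀ α, Q α) → F} (hf : Dp L f) {α : σ} (hα : α ∉ L) (y : Q α)
    (x : ∀ α, Q α) : f (Function.update x α y) = f x :=
  hf _ _ fun β hβ => Function.update_of_ne (fun h : β = α => hα (h ▸ hβ)) _ _

lemma InB.pw {X : ∀ α, Finset (Q α)} {z w : ∀ α, Q α} (hz : InB X z) (hw : InB X w)
    (K : Finset σ) : InB X (K.piecewise z w) := fun α => by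
  by_cases hK : α ∈ K
  · rw [piecewise_eq_of_mem _ _ _ hK]
    exact hz α
  · rw [piecewise_eq_of_notMem _ _ _ hK]
    exact hw α

/-- the degree `S` part, on the box `X`, of the ideal generated by the `c i` (of degree `L i`) -/
def Mem (X : ∀ α, Finset (Q α)) (S : Finset σ) {κ : Type} [Fintype κ] (L : κ → Finset σ)
    (c : κ → (∀ α, Q α) → F) : Submodule F ((∀ α, Q α) → F) where
  carrier := {g | ∃ n : κ → (∀ α, Q α) → F, (∀ i, Dp (S \ L i) (n i)) ∧
    (∀ i, ¬ L i ⊆ S → n i = 0) ∧ ∀ x, InB X x → g x = ∑ i, c i x * n i x}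
  zero_mem' := ⟨0, fun _ => Dp.zero _, fun _ _ => rfl, fun _ _ => by simp⟩
  add_mem' := by
    rintro f g ⟨n, h1, h2, h3⟩ ⟨m, h4, h5, h6⟩
    refine ⟨n + m, fun i x y h => ?_, fun i hi => by simp [h2 i hi, h5 i hi], fun x hx => ?_⟩
    · simp [h1 i x y h, h4 i x y h]
    · simp [h3 x hx, h6 x hx, mul_add, sum_add_distrib]
  smul_mem' := by
    rintro a f ⟨n, h1, h2, h3⟩
    refine ⟨a • n, fun i => (h1 i).smul a, fun i hi => by simp [h2 i hi], fun x hx => ?_⟩
    simp [h3 x hx, mul_sum, mul_left_comm]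

variable {X : ∀ α, Finset (Q α)} {S : Finset σ} {κ : Type} [Fintype κ] {L : κ → Finset σ}
  {c : κ → (∀ α, Q α) → F}

lemma Mem.of_eq {f g : (∀ α, Q α) → F} (hf : f ∈ Mem X S L c) (h : ∀ x, InB X x → g x = f x) :
    g ∈ Mem X S L c := by
  obtain ⟨n, h1, h2, h3⟩ := hf
  exact ⟨n, h1, h2, fun x hx => (h x hx).trans (h3 x hx)⟩

lemma Mem.mul {K : Finset σ} (hK : K ⊆ S) {f h : (∀ α, Q α) → F} (hf : f ∈ Mem X K L c)
    (hh : Dp (S \ K) h) : f * h ∈ Mem X S L c := by
  obtain ⟨n, h1, h2, h3⟩ := hf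
  refine ⟨fun i => n i * h, fun i => ?_, fun i hi => ?_, fun x hx => ?_⟩
  · by_cases hi : L i ⊆ K
    · exact ((h1 i).mono (sdiff_subset_sdiff hK le_rfl)).mul
        (hh.mono (sdiff_subset_sdiff le_rfl hi))
    · simp only [h2 i hi, zero_mul]
      exact Dp.zero _
  · simp only [h2 i fun h => hi (h.trans hK), zero_mul]
  · simp [h3 x hx, sum_mul, mul_assoc]

/-- a functional supported on `Z` that kills the ideal -/
def Tst (X : ∀ α, Finset (Q α)) (S : Finset σ) {κ : Type} [Fintype κ] (L : κ → Finset σ)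
    (c : κ → (∀ α, Q α) → F) (Z : Finset (∀ α, Q α)) (w : (∀ α, Q α) → F) : Prop :=
  (∀ z ∈ Z, InB X z) ∧ ∀ f ∈ Mem X S L c, ∑ z ∈ Z, w z * f z = 0

/-- a spanning subfamily with dual vectors -/
lemma exists_span {T ι : Type} [Fintype ι] (v : T → ι → F) :
    ∃ (J : Type) (_ : Fintype J) (τ : J → T) (g : J → ι → F), Fintype.card J ≤ Fintype.card ι ∧
      ∀ t j, v t j = ∑ s, (∑ i, g s i * v t i) * v (τ s) j := by
  classical
  obtain ⟨J, τ, -, hsp, hli⟩ := exists_linearIndependent' F v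
  have : Finite J := hli.finite
  have := Fintype.ofFinite J
  obtain ⟨R, hR⟩ := (Fintype.linearCombination F (v ∘ τ)).exists_leftInverse_of_injective
    (LinearMap.ker_eq_bot.2 (linearIndependent_iff_injective_fintypeLinearCombination.1 hli))
  refine ⟨J, this, τ, fun s i => R (Pi.single i 1) s, by simpa using hli.fintype_card_le_finrank,
    fun t j => ?_⟩
  have ht : v t ∈ Submodule.span F (Set.range (v ∘ τ)) := hsp ▸ Submodule.subset_span ⟨t, rfl⟩
  obtain ⟨b, hb⟩ := (Submodule.mem_span_range_iff_exists_fun F).1 ht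
  have h1 : R (v t) = b := by
    have := LinearMap.congr_fun hR b
    rwa [LinearMap.comp_apply, Fintype.linearCombination_apply, hb] at this
  have h2 : ∀ s, ∑ i, R (Pi.single i 1) s * v t i = b s := fun s => by
    rw [← h1]
    conv_rhs => rw [pi_eq_sum_univ' (v t), map_sum]
    simp [Finset.sum_apply, mul_comm]
  simp only [h2]
  rw [← hb]
  simp [Finset.sum_apply]

/-- a critical box -/
lemma exists_crit [Fintype σ] [∀ α, DecidableEq (Q α)] (p : (∀ α, Finset (Q α)) → Prop)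
    (X : ∀ α, Finset (Q α)) (hX : p X) : ∃ Y : ∀ α, Finset (Q α), (∀ α, Y α ⊆ X α) ∧ p Y ∧
      ∀ α, ∀ γ ∈ Y α, ¬ p (Function.update Y α ((Y α).erase γ)) := by
  generalize hn : ∑ α, (X α).card = n
  induction n using Nat.strong_induction_on generalizing X with
  | _ n ih =>
    by_cases h : ∀ α, ∀ γ ∈ X α, ¬ p (Function.update X α ((X α).erase γ))
    · exact ⟨X, fun _ => le_rfl, hX, h⟩
    · push Not at h
      obtain ⟨α, γ, hγ, hp⟩ := h
      have hle : ∀ β, Function.update X α ((X α).erase γ) β ⊆ X β := fun β => by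
        by_cases hb : β = α
        · subst hb
          simpa using erase_subset _ _
        · simp [Function.update_of_ne hb]
      obtain ⟨Y, h1, h2⟩ := ih _ (hn ▸ sum_lt_sum (fun β _ => card_le_card (hle β))
        ⟨α, mem_univ _, by simpa using card_erase_lt_of_mem hγ⟩) _ hp rfl
      exact ⟨Y, fun β => (h1 β).trans (hle β), h2⟩

lemma InB.erase [∀ α, DecidableEq (Q α)] {x : ∀ α, Q α} (hx : InB X x) {α : σ} {γ : Q α}
    (h : x α ≠ γ) : InB (Function.update X α ((X α).erase γ)) x := fun β => by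
  by_cases hb : β = α
  · subst hb
    simpa using ⟨h, hx β⟩
  · simpa [Function.update_of_ne hb] using hx β

lemma InB.up {x : ∀ α, Q α} (hx : InB X x) {α : σ} {y : Q α} (hy : y ∈ X α) :
    InB X (Function.update x α y) := fun β => by
  by_cases hb : β = α
  · subst hb
    simpa using hy
  · simpa [Function.update_of_ne hb] using hx β

end Pool.Agent.Lib.TR5
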