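import Pool.Agent.Lib.TR5.Mem

/-! Slice rank: cutting by generic hyperplanes, and multilinear forms vanishing on a product of
subspaces. -/

namespace Pool.Agent.Lib.TR5

open Finset Module

variable {σ : Type} [Fintype σ] [DecidableEq σ] {E : Type} [Field E]

lemma cut_end {Γ : Type} [Fintype Γ] {V : σ → Type} [∀ β, AddCommGroup (V β)]
    [∀ β, Module E (V β)] [∀ β, FiniteDimensional E (V β)]
    (τ : (Γ → E) →ₗ[E] MultilinearMap E V E) (G : ∀ β, Submodule E (V β))
    (h : ∀ c, (∀ v, (∀ β, v β ∈ G β) → τ c v = 0) → c = 0) :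
    Fintype.card Γ ≤ ∏ β, finrank E (G β) := by
  let b := fun β => finBasis E (G β)
  let φ : (Γ → E) →ₗ[E] ((∀ β, Fin (finrank E (G β))) → E) :=
    { toFun := fun c j => τ c fun β => (b β (j β)).1
      map_add' := fun c c' => by funext j; simp
      map_smul' := fun a c => by funext j; simp }
  have hφ : Function.Injective φ := by
    rw [← LinearMap.ker_eq_bot, LinearMap.ker_eq_bot']
    intro c hc
    refine h c fun v hv => ?_
    have h1 : (τ c).compLinearMap (fun β => (G β).subtype) = 0 :=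
      Basis.ext_multilinear b fun j => congrFun hc j
    exact DFunLike.congr_fun h1 fun β => ⟨v β, hv β⟩
  simpa using LinearMap.finrank_le_finrank_of_injective hφ

lemma cut [Infinite E] {Γ : Type} [Fintype Γ] {V : σ → Type} [∀ β, AddCommGroup (V β)]
    [∀ β, Module E (V β)] [∀ β, FiniteDimensional E (V β)]
    (τ : (Γ → E) →ₗ[E] MultilinearMap E V E) (l : ℕ) (κ : Γ → σ → Type)
    [∀ γ β, Fintype (κ γ β)] (A : ∀ γ β, V β →ₗ[E] (κ γ β → E)) (ι : Γ → Type)
    [∀ γ, Fintype (ι γ)] (ρ : ∀ γ, (Γ → E) →ₗ[E] (ι γ → E))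
    (hρ : ∀ γ c, ρ γ c = 0 → ∀ v, (∀ β, A γ β (v β) = 0) → τ c v = 0)
    (hd : ∀ γ β, Fintype.card (κ γ β) + Fintype.card (ι γ) ≤ l) (G : ∀ β, Submodule E (V β))
    (hP : ∀ γ c, (∀ v, (∀ β, A γ β (v β) = 0) → (∀ β, v β ∈ G β) → τ c v = 0) → c γ = 0) :
    Fintype.card Γ ≤ ∏ β, min l (finrank E (G β)) := by
  classical
  generalize hn : ∑ β, finrank E (G β) = n
  induction n using Nat.strong_induction_on generalizing G with
  | _ n ih =>
  by_cases hl : ∀ β, finrank E (G β) ≤ l
  · rw [prod_congr rfl fun β _ => min_eq_right (hl β)]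
    exact cut_end τ G fun c hc => funext fun γ => hP γ c fun v _ hv => hc v hv
  push Not at hl
  obtain ⟨β, hβ⟩ := hl
  rcases isEmpty_or_nonempty Γ with hΓ | ⟨⟨γ₀⟩⟩
  · simp
  have key : ∀ γ, ∃ u ∈ G β, u ≠ 0 ∧ A γ β u = 0 ∧ ∀ (c : Γ → E) (ξ : Dual E (V β)),
      (∀ v, (∀ β, A γ β (v β) = 0) → (∀ β, v β ∈ G β) → ξ (v β) = 0 → τ c v = 0) →
      ∀ v, (∀ β, A γ β (v β) = 0) → (∀ β, v β ∈ G β) → v β = u → τ c v = 0 := by
    intro γ
    let C := {p : (Γ → E) × Dual E (V β) //
      ∀ v, (∀ β, A γ β (v β) = 0) → (∀ β, v β ∈ G β) → p.2 (v β) = 0 → τ p.1 v = 0}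
    obtain ⟨J, t, -, hsp, hli⟩ := exists_linearIndependent' E fun p : C => ρ γ p.1.1
    have : Finite J := hli.finite
    have := Fintype.ofFinite J
    have hJ : Fintype.card J ≤ Fintype.card (ι γ) := by simpa using hli.fintype_card_le_finrank
    let φ : G β →ₗ[E] (κ γ β → E) × (J → E) :=
      ((A γ β).prod (LinearMap.pi fun j => (t j).1.2)).comp (G β).subtype
    have hφ : LinearMap.ker φ ≠ ⊥ := fun h => by
      have := LinearMap.finrank_le_finrank_of_injective (LinearMap.ker_eq_bot.1 h)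
      have h2 := hd γ β
      simp only [finrank_prod, finrank_fintype_fun_eq_card] at this
      omega
    obtain ⟨u, hu, hu0⟩ := (Submodule.ne_bot_iff _).1 hφ
    have hu1 := Prod.ext_iff.1 (LinearMap.mem_ker.1 hu)
    refine ⟨u.1, u.2, fun h => hu0 (Subtype.ext h), hu1.1, fun c ξ hc v h1 h2 h3 => ?_⟩
    have h4 : ρ γ c ∈ Submodule.span E (Set.range ((fun p : C => ρ γ p.1.1) ∘ t)) :=
      hsp ▸ Submodule.subset_span ⟨⟨(c, ξ), hc⟩, rfl⟩
    obtain ⟨a, ha⟩ := (Submodule.mem_span_range_iff_exists_fun E).1 h4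
    have h5 := hρ γ (c - ∑ j, a j • (t j).1.1) (by
      rw [map_sub, map_sum, ← ha]; simp) v h1
    have h6 : ∀ j, τ (t j).1.1 v = 0 := fun j =>
      (t j).2 v h1 h2 (by rw [h3]; exact congrFun hu1.2 j)
    simpa [h6] using h5
  choose u hu1 hu2 hu3 hu4 using key
  obtain ⟨ξ, hξ⟩ := Module.exists_dual_forall_apply_ne_zero (K := E) u hu2
  have hle : ∀ β', Function.update G β (G β ⊓ LinearMap.ker ξ) β' ≤ G β' := fun β' => by
    by_cases hb : β' = β
    · subst hb
      simp
    · simp [Function.update_of_ne hb]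
  have hmem : ∀ v : ∀ β, V β, (∀ β, v β ∈ G β) → ξ (v β) = 0 →
      ∀ β', v β' ∈ Function.update G β (G β ⊓ LinearMap.ker ξ) β' := fun v h1 h2 β' => by
    by_cases hb : β' = β
    · subst hb
      simpa using ⟨h1 _, h2⟩
    · simpa [Function.update_of_ne hb] using h1 β'
  have hlt : Function.update G β (G β ⊓ LinearMap.ker ξ) β < G β :=
    lt_of_le_of_ne (hle β) fun h => by
      have := hu1 γ₀
      rw [← h, Function.update_self] at this
      exact hξ γ₀ this.2
  refine (ih _ (hn ▸ sum_lt_sum (fun β' _ => Submodule.finrank_mono (hle β'))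
    ⟨β, mem_univ _, Submodule.finrank_lt_finrank_of_lt hlt⟩) _
    (fun γ c hc => hP γ c fun v h1 h2 => ?_) rfl).trans
    (prod_le_prod' fun β' _ => min_le_min_left _ (Submodule.finrank_mono (hle β')))
  have h3 : ∀ v, (∀ β, A γ β (v β) = 0) → (∀ β, v β ∈ G β) → ξ (v β) = 0 → τ c v = 0 :=
    fun v h1 h2 h3 => hc v h1 (hmem v h2 h3)
  have h4 : ∀ w, A γ β w = 0 → w ∈ G β → (∀ β', A γ β' (Function.update v β w β') = 0) ∧
      ∀ β', Function.update v β w β' ∈ G β' := fun w hw hw' => by
    constructor <;> intro β' <;> by_cases hb : β' = β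
    · subst hb
      simpa using hw
    · simpa [Function.update_of_ne hb] using h1 β'
    · subst hb
      simpa using hw'
    · simpa [Function.update_of_ne hb] using h2 β'
  have h5 : v = Function.update v β
      ((v β - (ξ (v β) / ξ (u γ)) • u γ) + (ξ (v β) / ξ (u γ)) • u γ) := by simp
  obtain ⟨h6, h7⟩ := h4 (v β - (ξ (v β) / ξ (u γ)) • u γ) (by simp [h1 β, hu3 γ])
    ((G β).sub_mem (h2 β) ((G β).smul_mem _ (hu1 γ)))
  obtain ⟨h8, h9⟩ := h4 (u γ) (hu3 γ) (hu1 γ)
  rw [h5, MultilinearMap.map_update_add, MultilinearMap.map_update_smul,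
    h3 _ h6 h7 (by simp [hξ γ]), hu4 γ c ξ h3 _ h8 h9 (by simp)]
  simp

variable {Q : σ → Type} [∀ β, Fintype (Q β)] [∀ β, DecidableEq (Q β)]

/-- the multilinear form with coefficients `h` -/
noncomputable def ml : ((∀ β, Q β) → E) →ₗ[E] MultilinearMap E (fun β => Q β → E) E :=
  Fintype.linearCombination E fun x =>
    (MultilinearMap.mkPiAlgebra E σ E).compLinearMap fun β => LinearMap.proj (x β)

omit [∀ β, DecidableEq (Q β)] in
lemma ml_apply (h : (∀ β, Q β) → E) (v : ∀ β, Q β → E) :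
    ml h v = ∑ x, h x * ∏ β, v β (x β) := by
  simp [ml, Fintype.linearCombination_apply]

lemma ml_single (h : (∀ β, Q β) → E) (x : ∀ β, Q β) :
    ml h (fun β => Pi.single (x β) 1) = h x := by
  rw [ml_apply, sum_eq_single x]
  · simp
  · intro y _ hy
    obtain ⟨β, hβ⟩ := Function.ne_iff.1 hy
    rw [prod_eq_zero (mem_univ β) (Pi.single_eq_of_ne hβ _), mul_zero]
  · simp

omit [∀ β, DecidableEq (Q β)] in
lemma ml_zero {β : σ} (a : Q β → E) {n : (∀ β, Q β) → E} (hn : Dp (univ.erase β) n)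
    {v : ∀ β, Q β → E} (hv : ∑ q, v β q * a q = 0) : ml (fun x => a (x β) * n x) v = 0 := by
  rw [ml_apply, ← (Equiv.piSplitAt β Q).symm.sum_comp, Fintype.sum_prod_type_right]
  refine sum_eq_zero fun r _ => ?_
  rcases isEmpty_or_nonempty (Q β) with h | ⟨⟨q₀⟩⟩
  · simp
  have h1 : ∀ q, ∀ j ∈ univ.erase β,
      (Equiv.piSplitAt β Q).symm (q, r) j = (Equiv.piSplitAt β Q).symm (q₀, r) j := by
    intro q j hj
    simp [Equiv.piSplitAt, (mem_erase.1 hj).1]
  have h2 : ∀ q, (Equiv.piSplitAt β Q).symm (q, r) β = q := fun q => by simp [Equiv.piSplitAt]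
  calc _ = ∑ q, (v β q * a q) * (n ((Equiv.piSplitAt β Q).symm (q₀, r)) *
        ∏ j ∈ univ.erase β, v j ((Equiv.piSplitAt β Q).symm (q₀, r) j)) := by
        refine sum_congr rfl fun q _ => ?_
        rw [← mul_prod_erase _ _ (mem_univ β), h2, hn _ _ (h1 q),
          prod_congr rfl fun j hj => by rw [h1 q j hj]]
        ring
    _ = 0 := by rw [← sum_mul, hv, zero_mul]

lemma mem_of_ml {κ : Type} [Fintype κ] (β : κ → σ) (a : κ → ∀ α, Q α → E)
    (M : Submodule E ((∀ β, Q β) → E))
    (hM : ∀ i n, Dp (univ.erase (β i)) n → (fun x => a i (β i) (x (β i)) * n x) ∈ M)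
    (h : (∀ β, Q β) → E)
    (hh : ∀ v, (∀ i, ∑ q, v (β i) q * a i (β i) q = 0) → ml h v = 0) : h ∈ M := by
  classical
  have key : ∀ α, ∃ s : κ → Q α → E, ∀ q i, β i = α →
      ∑ q', (Pi.single q 1 - ∑ j with β j = α, a j α q • s j : Q α → E) q' * a i α q' = 0 := by
    intro α
    let A : (Q α → E) →ₗ[E] (κ → E) :=
      { toFun := fun v i => if β i = α then ∑ q, v q * a i α q else 0
        map_add' := fun v w => by
          funext i
          by_cases hi : β i = α <;> simp [hi, add_mul, sum_add_distrib]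
        map_smul' := fun t v => by
          funext i
          by_cases hi : β i = α <;> simp [hi, mul_sum, mul_assoc] }
    obtain ⟨g, hg⟩ := A.rangeRestrict.exists_rightInverse_of_surjective A.range_rangeRestrict
    obtain ⟨p, hp⟩ := (LinearMap.range A).subtype.exists_leftInverse_of_injective
      (Submodule.ker_subtype _)
    refine ⟨fun j => g (p (Pi.single j 1)), fun q i hi => ?_⟩
    have h1 : ∑ j with β j = α, a j α q • (Pi.single j 1 : κ → E) = A (Pi.single q 1) := by
      funext j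
      simp [A, Finset.sum_apply, Pi.single_apply]
    have h2 : A (Pi.single q 1 - ∑ j with β j = α, a j α q • g (p (Pi.single j 1))) = 0 := by
      simp only [← map_smul, ← map_sum, h1, map_sub]
      have h3 := LinearMap.congr_fun hp ⟨A (Pi.single q 1), LinearMap.mem_range_self _ _⟩
      have h4 := congrArg Subtype.val
        (LinearMap.congr_fun hg ⟨A (Pi.single q 1), LinearMap.mem_range_self _ _⟩)
      simp only [LinearMap.comp_apply, Submodule.subtype_apply, LinearMap.id_apply] at h3 h4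
      rw [h3]
      exact sub_eq_zero.2 h4.symm
    have h5 := congrFun h2 i
    simp only [A, LinearMap.coe_mk, AddHom.coe_mk, if_pos hi] at h5
    exact h5
  choose s hs using key
  let r : ∀ α, Q α → Q α → E := fun α q => ∑ j with β j = α, a j α q • s α j
  let w : ∀ α, Q α → Q α → E := fun α q => Pi.single q 1 - r α q
  have h1 : h = ∑ S : Finset σ, fun x =>
      ml h (S.piecewise (fun α => r α (x α)) fun α => w α (x α)) := by
    funext x
    rw [Finset.sum_apply, ← MultilinearMap.map_add_univ, ← ml_single h x]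
    congr 1
    funext α
    simp [w]
  rw [h1]
  refine M.sum_mem fun S _ => ?_
  rcases S.eq_empty_or_nonempty with rfl | ⟨α, hα⟩
  · have : (fun x : ∀ β, Q β => ml h ((∅ : Finset σ).piecewise (fun α => r α (x α))
        fun α => w α (x α))) = 0 :=
      funext fun x => hh _ fun i => by rw [piecewise_empty]; exact hs _ _ i rfl
    rw [this]
    exact M.zero_mem
  have h2 : (fun x : ∀ β, Q β => ml h (S.piecewise (fun α => r α (x α)) fun α => w α (x α))) =
      ∑ j with β j = α, fun x => a j α (x α) * ml h (Function.update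
        (S.piecewise (fun α => r α (x α)) fun α => w α (x α)) α (s α j)) := by
    funext x
    rw [Finset.sum_apply,
      ← Function.update_eq_self α (S.piecewise (fun α => r α (x α)) fun α => w α (x α)),
      piecewise_eq_of_mem _ _ _ hα]
    simp only [r, MultilinearMap.map_update_sum, MultilinearMap.map_update_smul, smul_eq_mul,
      Function.update_idem]
  rw [h2]
  refine M.sum_mem fun j hj => ?_
  obtain rfl := (mem_filter.1 hj).2
  refine hM j _ fun x y hxy => congrArg _ (funext fun α => ?_)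
  by_cases hb : α = β j
  · subst hb
    simp
  · rw [Function.update_of_ne hb, Function.update_of_ne hb]
    have := hxy α (mem_erase.2 ⟨hb, mem_univ _⟩)
    by_cases hS : α ∈ S
    · rw [piecewise_eq_of_mem _ _ _ hS, piecewise_eq_of_mem _ _ _ hS, this]
    · rw [piecewise_eq_of_notMem _ _ _ hS, piecewise_eq_of_notMem _ _ _ hS, this]

end Pool.Agent.Lib.TR5
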