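import Pool.Agent.Lib.TR5.SUp

/-! Slice rank: tensors supported on an antichain, covers, and a critical example. -/

namespace Pool.Agent.Lib.TR5

open Finset

variable {σ : Type} [Fintype σ] [DecidableEq σ] {F : Type} [Field F]

/-- elimination along a weight -/
lemma gauss {Q : Type} [Fintype Q] [DecidableEq Q] (w : Q → ℤ) {ι : Type} (s : Finset ι)
    (a : ι → Q → F) : ∃ (S : Finset Q) (u : Q → Q → F), S.card ≤ s.card ∧ ∀ x ∉ S, u x x = 1 ∧
      (∀ q ∉ S, q ≠ x → u x q = 0) ∧ (∀ i ∈ s, ∑ q, u x q * a i q = 0) ∧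
      ∀ q, u x q ≠ 0 → w x ≤ w q := by
  classical
  induction s using Finset.induction_on with
  | empty =>
    refine ⟨∅, fun x => Pi.single x 1, le_rfl, fun x _ => ⟨by simp,
      fun q _ h => Pi.single_eq_of_ne h _, by simp, fun q h => ?_⟩⟩
    by_cases hq : q = x
    · rw [hq]
    · exact absurd (Pi.single_eq_of_ne hq _) h
  | insert i s hi ih =>
    obtain ⟨S, u, h1, h2⟩ := ih
    rw [card_insert_of_notMem hi]
    rcases (univ.filter fun x => x ∉ S ∧ ∑ q, u x q * a i q ≠ 0).eq_empty_or_nonempty with h | h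
    · refine ⟨S, u, by omega, fun x hx => ⟨(h2 x hx).1, (h2 x hx).2.1,
        forall_mem_insert _ _ _ |>.2 ⟨?_, (h2 x hx).2.2.1⟩, (h2 x hx).2.2.2⟩⟩
      by_contra h0
      exact filter_eq_empty_iff.1 h (mem_univ x) ⟨hx, h0⟩
    obtain ⟨y, hy, hm⟩ := exists_max_image _ w h
    obtain ⟨hy1, hy2⟩ := (mem_filter.1 hy).2
    refine ⟨insert y S, fun x q => u x q -
      (∑ q, u x q * a i q) / (∑ q, u y q * a i q) * u y q,
      (card_insert_le _ _).trans (by omega), fun x hx => ?_⟩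
    obtain ⟨hx1, hx2⟩ := not_or.1 (mem_insert.not.1 hx)
    obtain ⟨a1, a2, a3, a4⟩ := h2 x hx2
    obtain ⟨-, b2, b3, b4⟩ := h2 y hy1
    refine ⟨by simp [a1, b2 x hx2 hx1], fun q hq hqx => ?_,
      forall_mem_insert _ _ _ |>.2 ⟨?_, fun j hj => ?_⟩, fun q hq => ?_⟩
    · obtain ⟨hq1, hq2⟩ := not_or.1 (mem_insert.not.1 hq)
      simp [a2 q hq2 hqx, b2 q hq2 hq1]
    · simp only [sub_mul, sum_sub_distrib, mul_assoc, ← mul_sum, div_mul_cancel₀ _ hy2, sub_self]
    · simp only [sub_mul, sum_sub_distrib, mul_assoc, ← mul_sum, a3 j hj, b3 j hj, mul_zero,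
        sub_self]
    · by_cases h3 : u x q = 0
      · refine (hm x (mem_filter.2 ⟨mem_univ _, hx2, fun h => hq ?_⟩)).trans
          (b4 q fun h => hq ?_) <;> simp [h, h3]
      · exact a4 q h3

lemma cover_of_sdec {Q : σ → Type} [∀ α, Fintype (Q α)] [∀ α, DecidableEq (Q α)]
    (w : ∀ α, Q α → ℤ) {T : (∀ α, Q α) → F}
    (hT : ∀ x y, T x ≠ 0 → T y ≠ 0 → (∀ α, w α (x α) ≤ w α (y α)) → x = y) {l : ℕ}
    (h : SDec l T fun _ => univ) :
    ∃ P : Finset (Σ α, Q α), P.card < l ∧ ∀ x, T x ≠ 0 → ∃ α, ⟨α, x α⟩ ∈ P := by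
  obtain ⟨k, hk, β, a, b, hb, h⟩ := h
  choose S u h1 h2 using fun α => gauss (w α) (univ.filter fun i => β i = α) fun i => a i α
  refine ⟨univ.sigma S, ?_, fun x hx => ?_⟩
  · rw [card_sigma]
    refine (sum_le_sum fun α _ => h1 α).trans_lt ?_
    rwa [← card_eq_sum_card_fiberwise fun _ _ => mem_univ _, card_fin]
  by_contra hn
  have h3 : ∀ α, x α ∉ S α := fun α h => hn ⟨α, mem_sigma.2 ⟨mem_univ _, h⟩⟩
  have h4 : T = ∑ i, fun x => a i (β i) (x (β i)) * b i x :=
    funext fun y => by rw [h y fun _ => mem_univ _, Finset.sum_apply]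
  have h5 : ml T (fun α => u α (x α)) = 0 := by
    rw [h4, map_sum, _root_.sum_apply]
    exact sum_eq_zero fun i _ => ml_zero _ (hb i) ((h2 _ _ (h3 _)).2.2.1 i (by simp))
  rw [ml_apply, sum_eq_single x _ (by simp), prod_eq_one fun α _ => (h2 _ _ (h3 α)).1,
    mul_one] at h5
  · exact hx h5
  intro y _ hy
  by_contra h6
  obtain ⟨h7, h8⟩ := mul_ne_zero_iff.1 h6
  exact hy (hT x y hx h7 fun α =>
    (h2 _ _ (h3 α)).2.2.2 _ (prod_ne_zero_iff.1 h8 α (mem_univ _))).symm

lemma sdec_of_cover {Q : σ → Type} {T : (∀ α, Q α) → F} {X : ∀ α, Finset (Q α)} {l : ℕ}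
    (P : Finset (Σ α, Q α)) (hP : P.card < l)
    (h : ∀ x, InB X x → T x ≠ 0 → ∃ α, ⟨α, x α⟩ ∈ P) : SDec l T X := by
  classical
  let χ : (∀ α, Q α) → Option (Σ α, Q α) := fun x =>
    if h : ∃ α, (⟨α, x α⟩ : Σ α, Q α) ∈ P then some ⟨h.choose, x h.choose⟩ else none
  let g : (Σ α, Q α) → (∀ α, Q α) → F := fun p x => if χ x = some p then T x else 0
  let p : Fin P.card → Σ α, Q α := fun i => (P.equivFin.symm i).1
  refine ⟨P.card, hP, fun i => (p i).1, fun i α q => if ⟨α, q⟩ = p i then 1 else 0,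
    fun i x => g (p i) (Function.update x (p i).1 (p i).2),
    fun i => Dp.up (L := univ) (fun x y h => congrArg _ (funext fun α => h α (mem_univ _))) _ _,
    fun x hx => ?_⟩
  have h1 : ∀ q : Σ α, Q α, (if (⟨q.1, x q.1⟩ : Σ α, Q α) = q then 1 else 0) *
      g q (Function.update x q.1 q.2) = g q x := by
    rintro ⟨α, q⟩
    by_cases hq : x α = q
    · subst hq
      simp
    · rw [if_neg (by simpa using hq), zero_mul]
      refine (if_neg fun h => hq ?_).symm
      simp only [χ] at h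
      split_ifs at h with h'
      obtain ⟨h3, h4⟩ := Sigma.mk.inj_iff.1 (Option.some.inj h)
      subst h3
      exact eq_of_heq h4
  simp only [h1]
  rw [P.equivFin.symm.sum_comp fun q : P => g q.1 x, sum_coe_sort P fun q => g q x]
  by_cases h0 : T x = 0
  · simp [g, h0]
  have h2 := h x hx h0
  have h3 : χ x = some ⟨h2.choose, x h2.choose⟩ := dif_pos h2
  simp only [g, h3, Option.some.injEq, sum_ite_eq, if_pos h2.choose_spec]

/-- the point of an edge: shared vertices, and a private vertex in the other coordinates -/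
def pt {Ed V : Type} (sh : Ed → σ → Option V) (e : Ed) (β : σ) : Ed ⊕ V :=
  (sh e β).elim (.inl e) .inr

omit [DecidableEq σ] in
lemma antichain {Ed V : Type} [Fintype V] (sh : Ed → σ → Option V) (h1 : Function.Injective sh)
    (h2 : ∀ e, ∃ β, sh e β = none) : ∃ w : Ed ⊕ V → ℤ,
      ∀ e e', (∀ β, w (pt sh e β) ≤ w (pt sh e' β)) → e = e' := by
  let ω : Option V → ℤ := fun o => o.elim 0 fun v => (Fintype.equivFin V v : ℕ) + 1
  have h0 : ∀ o, 0 ≤ ω o := fun o => by cases o <;> simp only [ω, Option.elim] <;> omega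
  have hω : Function.Injective ω := fun o o' h => by
    cases o <;> cases o' <;> simp only [ω, Option.elim] at h
    · rfl
    · omega
    · omega
    · exact congrArg some ((Fintype.equivFin V).injective (Fin.ext (by omega)))
  refine ⟨Sum.elim (fun e => -(1 + ∑ β, ω (sh e β))) fun v => ω (some v), fun e e' h => ?_⟩
  have h3 : 0 ≤ ∑ β, ω (sh e' β) := sum_nonneg fun _ _ => h0 _
  have h4 : ∀ β, ω (sh e β) ≤ ω (sh e' β) ∧
      (sh e' β = none → ∑ β, ω (sh e' β) ≤ ∑ β, ω (sh e β)) := fun β => by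
    have h5 := h β
    unfold pt at h5
    rcases h6 : sh e β with _ | v <;> rcases h7 : sh e' β with _ | v' <;>
      simp only [h6, h7, Option.elim, Sum.elim_inl, Sum.elim_inr] at h5
    · exact ⟨le_rfl, fun _ => by omega⟩
    · exact ⟨h0 _, fun h => by cases h⟩
    · have := h0 (some v)
      omega
    · exact ⟨h5, fun h => by cases h⟩
  obtain ⟨β, hβ⟩ := h2 e'
  exact h1 (funext fun β' => hω ((sum_eq_sum_iff_of_le fun β _ => (h4 β).1).1
    (le_antisymm (sum_le_sum fun β _ => (h4 β).1) ((h4 β).2 hβ)) β' (mem_univ _)))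

/-- edges of the example -/
abbrev Ed (D n m : ℕ) : Type :=
  {I : Finset (Fin n) // I.card = D} ⊕ (Fin n × Fin (D - 1) × Fin D) ⊕ Fin m

/-- shared vertices of the example -/
abbrev Vx (D n m : ℕ) : Type := Fin n ⊕ (Fin n × Fin (D - 1)) ⊕ Fin m

variable {D n m : ℕ}

/-- shared vertices of an edge -/
def sh : Ed D n m → Fin (D + 1) → Option (Vx D n m)
  | .inl I => Fin.cons none fun α => some (.inl (I.1.orderEmbOfFin I.2 α))
  | .inr (.inl (i, s, α)) =>
      Fin.cons (some (.inr (.inl (i, s)))) fun α' => if α' = α then some (.inl i) else none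
  | .inr (.inr t) => Fin.cons (some (.inr (.inr t))) fun _ => none

lemma sh_inj : Function.Injective (sh : Ed D n m → _) := by
  rintro (I | ⟨i, s, α⟩ | t) (I' | ⟨i', s', α'⟩ | t') h <;> have h0 := congrFun h 0 <;>
    simp only [sh, Fin.cons_zero, reduceCtorEq, Option.some.injEq, Sum.inr.injEq, Sum.inl.injEq,
      Prod.mk.injEq] at h0
  · refine congrArg _ (Subtype.ext (coe_injective ?_))
    rw [← range_orderEmbOfFin _ I.2, ← range_orderEmbOfFin _ I'.2]
    refine congrArg _ (funext fun α => ?_)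
    simpa [sh] using congrFun h α.succ
  · have h1 := congrFun h α.succ
    simp only [sh, Fin.cons_succ, if_true] at h1
    split_ifs at h1 with h2
    rw [h0.1, h0.2, h2]
  · rw [h0]

lemma sh_priv (hD : 1 ≤ D) (e : Ed D n m) : ∃ β, sh e β = none := by
  rcases e with I | ⟨i, s, α⟩ | t
  · exact ⟨0, rfl⟩
  · have := s.2
    have : Nontrivial (Fin D) := Fin.nontrivial_iff_two_le.2 (by omega)
    obtain ⟨α', h⟩ := exists_ne α
    exact ⟨α'.succ, by simp [sh, h]⟩
  · exact ⟨Fin.succ ⟨0, hD⟩, rfl⟩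

lemma le_choose_add (hD : 1 ≤ D) (r : ℕ) : r ≤ r.choose D + (D - 1) := by
  induction r with
  | zero => omega
  | succ r ih =>
    obtain ⟨D, rfl⟩ := Nat.exists_eq_add_of_le' hD
    rw [Nat.choose_succ_succ']
    rcases le_or_gt D r with h | h
    · have := Nat.choose_pos h
      omega
    · omega

lemma cover_ge (hD : 1 ≤ D) (P : Finset (Σ _ : Fin (D + 1), Ed D n m ⊕ Vx D n m))
    (h : ∀ e, ∃ α, ⟨α, pt sh e α⟩ ∈ P) : m + D * n ≤ P.card + (D - 1) := by
  classical
  let own : Ed D n m ⊕ Vx D n m → {I : Finset (Fin n) // I.card = D} ⊕ Fin n ⊕ Fin m :=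
    Sum.elim (Sum.map id (Sum.map Prod.fst id))
      (Sum.elim (fun i => .inr (.inl i)) fun v => .inr (Sum.map Prod.fst id v))
  let Z := univ.filter fun i : Fin n => ∀ α : Fin D, ⟨α.succ, .inr (.inl i)⟩ ∉ P
  have h1 : ∀ t, 1 ≤ (P.filter fun p => own p.2 = .inr (.inr t)).card := fun t => by
    obtain ⟨α, hα⟩ := h (.inr (.inr t))
    refine card_pos.2 ⟨_, mem_filter.2 ⟨hα, ?_⟩⟩
    induction α using Fin.cases <;> rfl
  have h2 : ∀ I : {I : Finset (Fin n) // I.card = D},
      (if I.1 ⊆ Z then 1 else 0) ≤ (P.filter fun p => own p.2 = .inl I).card := fun I => by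
    split_ifs with hI
    · obtain ⟨α, hα⟩ := h (.inl I)
      refine card_pos.2 ⟨_, mem_filter.2 ⟨hα, ?_⟩⟩
      induction α using Fin.cases with
      | zero => rfl
      | succ α => exact absurd hα ((mem_filter.1 (hI (orderEmbOfFin_mem _ I.2 α))).2 α)
    · exact Nat.zero_le _
  have h3 : ∀ i, D ≤ (P.filter fun p => own p.2 = .inr (.inl i)).card +
      if i ∈ Z then 1 else 0 := fun i => by
    by_cases hi : ∀ α : Fin D, ⟨α.succ, .inr (.inl i)⟩ ∈ P
    · refine le_add_right ((card_fin D).symm.le.trans (card_le_card_of_injOn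
        (fun α : Fin D => ⟨α.succ, .inr (.inl i)⟩)
        (fun α _ => mem_coe.2 (mem_filter.2 ⟨hi α, rfl⟩)) fun α _ α' _ h => ?_))
      exact Fin.succ_injective _ (congrArg Sigma.fst h)
    obtain ⟨α, hα⟩ := not_forall.1 hi
    let tag : Ed D n m ⊕ Vx D n m → Option (Fin (D - 1)) :=
      Sum.elim (Sum.elim (fun _ => none) (Sum.elim (fun p => some p.2.1) fun _ => none))
        (Sum.elim (fun _ => none) (Sum.elim (fun p => some p.2) fun _ => none))
    have h4 : ∀ s, some s ∈ (P.filter fun p => own p.2 = .inr (.inl i)).image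
        fun p => tag p.2 := fun s => by
      obtain ⟨β, hβ⟩ := h (.inr (.inl (i, s, α)))
      have : own (pt sh (.inr (.inl (i, s, α))) β) = .inr (.inl i) ∧
          tag (pt sh (.inr (.inl (i, s, α))) β) = some s := by
        induction β using Fin.cases with
        | zero => exact ⟨rfl, rfl⟩
        | succ β =>
          by_cases hb : β = α
          · subst hb
            simp [pt, sh, hα] at hβ
          · simp [pt, sh, hb, own, tag]
      exact mem_image.2 ⟨_, mem_filter.2 ⟨hβ, this.1⟩, this.2⟩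
    refine le_trans ?_ (Nat.add_le_add_right (card_image_le (f := fun p => tag p.2)) _)
    split_ifs with hZ
    · have := card_le_card_of_injOn (s := univ) some (fun s _ => mem_coe.2 (h4 s))
        (Option.some_injective _).injOn
      rw [card_fin] at this
      omega
    · obtain ⟨β, hβ⟩ : ∃ β : Fin D, ⟨β.succ, .inr (.inl i)⟩ ∈ P := by simpa [Z] using hZ
      rw [eq_univ_of_forall (s := image _ _) fun o => by
        cases o with
        | none => exact mem_image.2 ⟨_, mem_filter.2 ⟨hβ, rfl⟩, rfl⟩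
        | some s => exact h4 s]
      simp only [card_univ, Fintype.card_option, Fintype.card_fin]
      omega
  have h5 : ∑ I : {I : Finset (Fin n) // I.card = D}, (if I.1 ⊆ Z then 1 else 0) =
      Z.card.choose D := by
    rw [← card_powersetCard, ← sum_filter, ← card_eq_sum_ones]
    refine card_bij (fun I _ => I.1) (fun I hI => mem_powersetCard.2 ⟨(mem_filter.1 hI).2, I.2⟩)
      (fun _ _ _ _ h => Subtype.ext h) fun I hI => ?_
    obtain ⟨a, b⟩ := mem_powersetCard.1 hI
    exact ⟨⟨I, b⟩, mem_filter.2 ⟨mem_univ _, a⟩, rfl⟩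
  have h6 := sum_le_sum (s := univ) fun t _ => h1 t
  have h7 := sum_le_sum (s := univ) fun t _ => h2 t
  have h8 := sum_le_sum (s := univ) fun t _ => h3 t
  have h9 := le_choose_add hD Z.card
  rw [card_eq_sum_card_fiberwise (f := fun p => own p.2) (t := univ) fun _ _ => mem_univ _,
    Fintype.sum_sum_type, Fintype.sum_sum_type]
  rw [h5] at h7
  simp only [sum_const, card_fin, smul_eq_mul, mul_one, sum_add_distrib, sum_ite_mem, univ_inter,
    mul_comm n D] at h6 h8
  omega

lemma cover_le (I : {I : Finset (Fin n) // I.card = D}) :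
    ∃ P : Finset (Σ _ : Fin (D + 1), Ed D n m ⊕ Vx D n m), P.card + D ≤ m + D * n ∧
      ∀ e, e ≠ .inl I → ∃ α, ⟨α, pt sh e α⟩ ∈ P := by
  classical
  refine ⟨((I.1ᶜ ×ˢ univ).image fun p : Fin n × Fin D => ⟨p.2.succ, .inr (.inl p.1)⟩) ∪
    ((I.1 ×ˢ univ).image fun p : Fin n × Fin (D - 1) => ⟨0, .inr (.inr (.inl p))⟩) ∪
    univ.image fun t : Fin m => ⟨0, .inr (.inr (.inr t))⟩, ?_, ?_⟩
  · have h1 : D ≤ n := by simpa [I.2] using card_le_univ I.1
    refine (Nat.add_le_add_right ((card_union_le _ _).trans (Nat.add_le_add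
      ((card_union_le _ _).trans (Nat.add_le_add card_image_le card_image_le)) card_image_le))
      _).trans ?_
    simp only [card_product, card_compl, Fintype.card_fin, card_fin, I.2]
    obtain ⟨k, rfl⟩ := Nat.exists_eq_add_of_le h1
    rw [Nat.add_sub_cancel_left, Nat.mul_sub_one, mul_add, mul_comm k]
    have := Nat.le_mul_self D
    omega
  rintro (I' | ⟨i, s, α⟩ | t) he
  · obtain ⟨i, h1, h2⟩ : ∃ i ∈ I'.1, i ∉ I.1 := not_subset.1 fun h =>
      he (congrArg _ (Subtype.ext (eq_of_subset_of_card_le h (I.2.trans I'.2.symm).le)))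
    obtain ⟨α, rfl⟩ : i ∈ Set.range (I'.1.orderEmbOfFin I'.2) := by
      rwa [range_orderEmbOfFin]
    exact ⟨α.succ, by simp [pt, sh, h2]⟩
  · by_cases hi : i ∈ I.1
    · exact ⟨0, by simp [pt, sh, hi]⟩
    · exact ⟨α.succ, by simp [pt, sh, hi]⟩
  · exact ⟨0, by simp [pt, sh]⟩

theorem s_lower (hD : 1 ≤ D) (l : ℕ) (hle : D ≤ (l + D - 1) / D) (F : Type) [Field F] :
    ∃ (Q : Type) (_ : Fintype Q) (_ : Nonempty Q) (T : (Fin (D + 1) → Q) → F), ¬ SDec l T (fun _ => univ) ∧
      ∀ X : Fin (D + 1) → Finset Q, ¬ SDec l T X → ((l + D - 1) / D).choose D ≤ (X 0).card := by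
  classical
  generalize hn : (l + D - 1) / D = n at hle ⊢
  obtain ⟨m, hm⟩ : ∃ m, m + D * n = l + D - 1 :=
    ⟨l + D - 1 - D * n, Nat.sub_add_cancel (hn ▸ Nat.mul_div_le _ _)⟩
  obtain ⟨w, hw⟩ := antichain (sh : Ed D n m → _) sh_inj (sh_priv hD)
  refine ⟨Ed D n m ⊕ Vx D n m, inferInstance, ⟨.inr (.inl ⟨0, by omega⟩)⟩,
    fun x => if ∃ e, x = pt sh e then 1 else 0, fun h => ?_, fun X hX => ?_⟩
  · obtain ⟨P, h1, h2⟩ := cover_of_sdec (fun _ => w) (fun x y hx hy h => by
      obtain ⟨e, rfl⟩ : ∃ e, x = pt sh e := by_contra fun h => hx (if_neg h)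
      obtain ⟨e', rfl⟩ : ∃ e, y = pt sh e := by_contra fun h => hy (if_neg h)
      rw [hw e e' h]) h
    have := cover_ge hD P fun e => h2 _ (by simp)
    omega
  have h1 : ∀ I, .inl (.inl I) ∈ X 0 := fun I => by
    by_contra h
    obtain ⟨P, h1, h2⟩ := cover_le (m := m) I
    refine hX (sdec_of_cover P (by omega) fun x hx h0 => ?_)
    obtain ⟨e, rfl⟩ : ∃ e, x = pt sh e := by_contra fun h => h0 (if_neg h)
    refine h2 e ?_
    rintro rfl
    exact h (hx 0)
  have := card_le_card_of_injOn (s := univ) (fun I => Sum.inl (Sum.inl I))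
    (fun I _ => mem_coe.2 (h1 I)) fun _ _ _ _ h => Sum.inl_injective (Sum.inl_injective h)
  simpa using this

end Pool.Agent.Lib.TR5
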