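import Pool.Agent.Lib.TR5.SCut

/-! Slice rank: critical boxes have sides at most `l ^ (d - 1)`. -/

namespace Pool.Agent.Lib.TR5

open Finset Module

variable {σ : Type} [Fintype σ] [DecidableEq σ]

/-- `T` is on the box `X` a sum of fewer than `l` slice terms -/
def SDec (l : ℕ) {F : Type} [Field F] {Q : σ → Type} (T : (∀ α, Q α) → F)
    (X : ∀ α, Finset (Q α)) : Prop :=
  ∃ k < l, ∃ (β : Fin k → σ) (a : Fin k → ∀ α, Q α → F) (b : Fin k → (∀ α, Q α) → F),
    (∀ i, Dp (univ.erase (β i)) (b i)) ∧ ∀ x, InB X x → T x = ∑ i, a i (β i) (x (β i)) * b i x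

theorem s_upper (l : ℕ) (F : Type) [Field F] (Q : σ → Type) (T : (∀ α, Q α) → F)
    (X : ∀ α, Finset (Q α)) (hX : ¬ SDec l T X) :
    ∃ Y : ∀ α, Finset (Q α), (∀ α, (Y α).card ≤ l ^ (Fintype.card σ - 1)) ∧ ¬ SDec l T Y := by
  classical
  rcases Nat.eq_zero_or_pos l with rfl | hl
  · exact ⟨fun _ => ∅, fun _ => by simp, fun ⟨k, hk, _⟩ => absurd hk (by omega)⟩
  obtain ⟨Y, -, hY, hcr⟩ := exists_crit (fun Y => ¬ SDec l T Y) X hX
  simp only [not_not] at hcr
  refine ⟨Y, fun α₀ => ?_, hY⟩
  obtain ⟨x₀, hx₀⟩ : ∃ x, InB Y x := by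
    by_contra h
    exact hY ⟨0, hl, Fin.elim0, Fin.elim0, Fin.elim0, fun i => i.elim0,
      fun x hx => absurd ⟨x, hx⟩ h⟩
  choose k hk β a b hb hT using fun γ : Y α₀ => hcr α₀ γ.1 γ.2
  obtain ⟨r, hr⟩ := (Algebra.linearMap F (RatFunc F)).exists_leftInverse_of_injective
    (LinearMap.ker_eq_bot.2 (algebraMap F (RatFunc F)).injective)
  set f := algebraMap F (RatFunc F) with hf
  have hr1 : ∀ t e, r (f t * e) = t * r e := fun t e => by
    rw [← Algebra.smul_def, map_smul, smul_eq_mul]
  have hr2 : ∀ t, r (f t) = t := fun t => LinearMap.congr_fun hr t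
  have : Infinite (RatFunc F) :=
    Infinite.of_injective _ (RatFunc.algebraMap_injective F)
  let Y' : ∀ α, Finset (Q α) := Function.update Y α₀ {x₀ α₀}
  have hY' : ∀ α, x₀ α ∈ Y' α := fun α => by
    by_cases h : α = α₀
    · subst h
      simp [Y']
    · simpa [Y', Function.update_of_ne h] using hx₀ α
  let e : (∀ α, Y' α) → Y α₀ → ∀ α, Q α := fun x y => Function.update (fun α => (x α).1) α₀ y.1
  have he0 : ∀ x y, e x y α₀ = y.1 := fun x y => Function.update_self ..
  have he1 : ∀ x y α, α ≠ α₀ → e x y α = (x α).1 := fun x y α h => Function.update_of_ne h ..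
  have heB : ∀ x y, InB Y (e x y) := fun x y α => by
    by_cases h : α = α₀
    · subst h
      rw [he0]
      exact y.2
    · rw [he1 _ _ _ h]
      simpa [Y', Function.update_of_ne h] using (x α).2
  have hsl : ∀ γ y x, y ≠ γ → f (T (e x y)) =
      ∑ i, f (a γ i (β γ i) (e x y (β γ i))) * f (b γ i (e x y)) := fun γ y x h => by
    rw [hT γ _ ((heB x y).erase (by rw [he0]; exact fun h' => h (Subtype.ext h'))), map_sum]
    simp only [map_mul]
  have hbe : ∀ γ i, β γ i = α₀ → ∀ x y, b γ i (e x y) = b γ i (e x γ) := fun γ i h x y =>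
    hb γ i _ _ fun α hα => by
      have : α ≠ α₀ := h ▸ (mem_erase.1 hα).1
      rw [he1 _ _ _ this, he1 _ _ _ this]
  have hbd : ∀ γ i y, Dp (univ.erase (β γ i)) fun x => f (b γ i (e x y)) := fun γ i y x x' h =>
    congrArg f (hb γ i _ _ fun α hα => by
      by_cases h0 : α = α₀
      · subst h0
        rw [he0, he0]
      · rw [he1 _ _ _ h0, he1 _ _ _ h0, h α hα])
  let g : (Y α₀ → RatFunc F) →ₗ[RatFunc F] ((∀ α, Y' α) → RatFunc F) :=
    Fintype.linearCombination _ fun y x => f (T (e x y))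
  have hg : ∀ c x, g c x = ∑ y, c y * f (T (e x y)) := fun c x => by
    simp [g, Fintype.linearCombination_apply]
  let A : ∀ (γ : Y α₀) α, (Y' α → RatFunc F) →ₗ[RatFunc F]
      ({i // β γ i = α ∧ α ≠ α₀} → RatFunc F) := fun γ α =>
    LinearMap.pi fun i => Fintype.linearCombination _ fun q => f (a γ i.1 α q.1)
  have hA : ∀ γ α v i, A γ α v i = ∑ q, v q * f (a γ i.1 α q.1) := fun γ α v i => by
    simp [A, Fintype.linearCombination_apply]
  let ρ : ∀ γ : Y α₀, (Y α₀ → RatFunc F) →ₗ[RatFunc F]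
      (Option {i // β γ i = α₀} → RatFunc F) := fun γ =>
    LinearMap.pi fun o => o.elim (LinearMap.proj γ)
      fun i => Fintype.linearCombination _ fun y => f (a γ i.1 α₀ y.1)
  have H := cut (ml.comp g) l (fun γ α => {i // β γ i = α ∧ α ≠ α₀}) A
    (fun γ => Option {i // β γ i = α₀}) ρ ?_ ?_ (fun _ => ⊤) ?_
  · rw [Fintype.card_coe, ← mul_prod_erase _ _ (mem_univ α₀)] at H
    refine H.trans ?_
    have h1 : min l (finrank (RatFunc F) (⊤ : Submodule (RatFunc F) (Y' α₀ → RatFunc F))) ≤ 1 :=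
      min_le_of_right_le (by simp [Y'])
    have h2 := prod_le_pow_card (univ.erase α₀) (fun α => min l
      (finrank (RatFunc F) (⊤ : Submodule (RatFunc F) (Y' α → RatFunc F)))) l
      fun _ _ => min_le_left _ _
    rw [card_erase_of_mem (mem_univ _), card_univ] at h2
    exact (Nat.mul_le_mul h1 h2).trans_eq (one_mul _)
  · intro γ c hc v hv
    have h0 : c γ = 0 := congrFun hc none
    have h1 : ∀ i, β γ i = α₀ → ∑ y, c y * f (a γ i α₀ y.1) = 0 := fun i hi => by
      simpa [ρ, Fintype.linearCombination_apply] using congrFun hc (some ⟨i, hi⟩)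
    have h2 : g c = ∑ i, fun x => ∑ y,
        c y * (f (a γ i (β γ i) (e x y (β γ i))) * f (b γ i (e x y))) := by
      funext x
      rw [hg, Finset.sum_apply, sum_comm]
      refine sum_congr rfl fun y _ => ?_
      by_cases h : y = γ
      · simp [h, h0]
      · rw [hsl γ y x h, mul_sum]
    rw [LinearMap.comp_apply, h2, map_sum, _root_.sum_apply]
    refine sum_eq_zero fun i _ => ?_
    by_cases hi : β γ i = α₀
    · have : (fun x => ∑ y, c y * (f (a γ i (β γ i) (e x y (β γ i))) * f (b γ i (e x y)))) = 0 := by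
        funext x
        simp only [hbe γ i hi x, ← mul_assoc, ← sum_mul]
        rw [hi]
        simp only [he0, h1 i hi, zero_mul, Pi.zero_apply]
      rw [this, map_zero]
      rfl
    · have : (fun x => ∑ y, c y * (f (a γ i (β γ i) (e x y (β γ i))) * f (b γ i (e x y)))) =
          fun x => f (a γ i (β γ i) (x (β γ i)).1) * ∑ y, c y * f (b γ i (e x y)) := by
        funext x
        simp only [he1 _ _ _ hi, mul_sum, mul_left_comm]
      rw [this]
      exact ml_zero (Q := fun α => Y' α) (fun q : Y' (β γ i) => f (a γ i (β γ i) q.1))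
        (fun x x' h => sum_congr rfl fun y _ => congrArg _ (hbd γ i y x x' h))
        ((hA γ _ _ ⟨i, rfl, hi⟩).symm.trans (congrFun (hv _) _))
  · intro γ α
    have h1 : Fintype.card {i // β γ i = α ∧ α ≠ α₀} ≤ Fintype.card {i // ¬ β γ i = α₀} :=
      Fintype.card_subtype_mono _ _ fun i h => h.1 ▸ h.2
    have h2 := Fintype.card_subtype_compl fun i => β γ i = α₀
    have h3 := Fintype.card_subtype_le fun i => β γ i = α₀
    have h4 := hk γ
    simp only [Fintype.card_option, Fintype.card_fin] at h2 h3 ⊢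
    omega
  intro γ c hc
  by_contra h0
  let M := Mem (fun α => (univ : Finset (Y' α))) univ
    (fun i => if β γ i = α₀ then univ else {β γ i})
    fun i x => if β γ i = α₀ then f (b γ i (e x γ)) else f (a γ i (β γ i) (x (β γ i)).1)
  have hM : ∀ i n, Dp (univ \ if β γ i = α₀ then univ else {β γ i}) n → (fun x =>
      (if β γ i = α₀ then f (b γ i (e x γ)) else f (a γ i (β γ i) (x (β γ i)).1)) * n x) ∈ M :=
    fun i n hn => ⟨Pi.single i n, fun j => by
      by_cases h : j = i
      · subst h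
        simpa using hn
      · rw [Pi.single_eq_of_ne h]
        exact Dp.zero _, fun j h => absurd (subset_univ _) h, fun x _ => by
      rw [sum_eq_single i (fun j _ h => by simp [Pi.single_eq_of_ne h]) (by simp)]
      simp⟩
  have h1 : g c ∈ M := mem_of_ml (β γ)
    (fun i α q => if β γ i = α₀ then 0 else f (a γ i α q.1)) M (fun i n hn => by
      by_cases hi : β γ i = α₀
      · simp only [if_pos hi, zero_mul]
        exact M.zero_mem
      · have := hM i n (by rwa [if_neg hi, sdiff_singleton_eq_erase])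
        simpa only [if_neg hi] using this) _
    fun v hv => hc v (fun α => funext fun ⟨i, h1, h2⟩ => by
      subst h1
      have := hv i
      simp only [if_neg h2] at this
      exact (hA _ _ _ _).trans this) fun _ => trivial
  have h2 : ∀ y, y ≠ γ → (fun x => f (T (e x y))) ∈ M := fun y hy => by
    have : (fun x => f (T (e x y))) =
        ∑ i, fun x => f (a γ i (β γ i) (e x y (β γ i))) * f (b γ i (e x y)) := by
      funext x
      rw [hsl γ y x hy, Finset.sum_apply]
    rw [this]
    refine M.sum_mem fun i _ => ?_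
    by_cases hi : β γ i = α₀
    · refine Mem.of_eq (hM i (fun _ => f (a γ i α₀ y.1)) fun _ _ _ => rfl) fun x _ => ?_
      rw [if_pos hi, hbe γ i hi, mul_comm, hi, he0]
    · refine Mem.of_eq (hM i _ (by
        rw [if_neg hi, sdiff_singleton_eq_erase]; exact hbd γ i y)) fun x _ => ?_
      rw [if_neg hi, he1 _ _ _ hi]
  have h3 : (fun x => f (T (e x γ))) ∈ M := by
    refine Mem.of_eq (M.smul_mem (c γ)⁻¹ (M.sub_mem h1 (M.sum_mem (t := univ.erase γ)
      fun y hy => M.smul_mem (c y) (h2 y (mem_erase.1 hy).1)))) fun x _ => ?_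
    simp only [Pi.smul_apply, Pi.sub_apply, hg, Finset.sum_apply, smul_eq_mul]
    rw [← add_sum_erase _ _ (mem_univ γ), add_sub_cancel_right, inv_mul_cancel_left₀ h0]
  obtain ⟨n, hn, -, h4⟩ := h3
  let π : (∀ α, Q α) → ∀ α, Y' α := fun x α => if h : x α ∈ Y' α then ⟨x α, h⟩ else ⟨x₀ α, hY' α⟩
  refine hY ⟨k γ, hk γ, β γ,
    fun i => Function.update (a γ i) α₀ (Function.update (a γ i α₀) γ.1 (r (n i (π x₀)))),
    fun i x => if β γ i ≠ α₀ ∧ x α₀ = γ.1 then r (n i (π x)) else b γ i x,
    fun i x y h => ?_, fun x hx => ?_⟩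
  · beta_reduce
    rw [hb γ i x y h]
    by_cases hi : β γ i = α₀
    · simp [hi]
    · rw [h α₀ (mem_erase.2 ⟨Ne.symm hi, mem_univ _⟩), hn i (π x) (π y) fun α hα => ?_]
      simp only [if_neg hi, sdiff_singleton_eq_erase] at hα
      simp only [π, h α hα]
  by_cases hx' : x α₀ = γ.1
  · have h5 : ∀ α, α ≠ α₀ → (π x α).1 = x α := fun α h => by
      have : x α ∈ Y' α := by simpa [Y', Function.update_of_ne h] using hx α
      simp only [π, dif_pos this]
    have h6 : e (π x) γ = x := funext fun α => by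
      by_cases h : α = α₀
      · subst h
        rw [he0, hx']
      · rw [he1 _ _ _ h, h5 α h]
    have h7 := congrArg r (h4 (π x) fun _ => mem_univ _)
    simp only [h6, hr2, map_sum] at h7
    rw [h7]
    refine sum_congr rfl fun i _ => ?_
    beta_reduce
    by_cases hi : β γ i = α₀
    · rw [if_pos hi, hr1, if_neg (fun h => h.1 hi), hn i (π x) (π x₀) (by simp [hi]), hi,
        Function.update_self, hx', Function.update_self, mul_comm]
    · rw [if_neg hi, hr1, if_pos ⟨hi, hx'⟩, Function.update_of_ne hi, h5 _ hi]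
  · rw [hT γ x (hx.erase hx')]
    refine sum_congr rfl fun i _ => ?_
    beta_reduce
    rw [if_neg fun h : β γ i ≠ α₀ ∧ x α₀ = γ.1 => hx' h.2]
    by_cases hi : β γ i = α₀
    · rw [hi, Function.update_self, Function.update_of_ne hx']
    · rw [Function.update_of_ne hi]

end Pool.Agent.Lib.TR5
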